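import Pool.Agent.N20.DI.Stm3
import Pool.Agent.Y286.NV.Fin
import Pool.Agent.Y171.NV.Kfin

/-!
# Pairs (chain of `p`-subgroups, character): the action on the `G`-classes

`G` is a normal subgroup of the finite group `E`.  A character of `N_G(C)` is extended by zero to `E`.
-/

set_option autoImplicit false
set_option linter.unusedSectionVars false

open scoped Classical BigOperators

noncomputable section

namespace Pool.Agent.D0H4.BR

open Pool.Agent.Y63.NV
open Pool.Agent.Y63.KR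
open Pool.Agent.Y63.AWC (IsIrreducibleCharacter irr_comp)
open Pool.Agent.Y171.NV (irr_fin)
open Pool.Agent.Y286.NV (centralValue_comp irr_class)
open Pool.Agent.R674.Tw (Fixes GCh NG NE NEbar ng_le ng_conj IndB invSum gchSetoid)
open Pool.Agent.N20.DI

section act

variable {E : Type} [Group E]

/-- pairs (set of subgroups, complex function) -/
abbrev Pr (E : Type) [Group E] : Type := Set (Subgroup E) × (E → ℂ)

/-- conjugation of pairs -/
def ac (e : E) (a : Pr E) : Pr E := (conjSub e '' a.1, fun x => a.2 (e⁻¹ * x * e))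

theorem ac_one (a : Pr E) : ac 1 a = a := by
  refine Prod.ext ?_ ?_
  · change conjSub (1 : E) '' a.1 = a.1
    have : (conjSub (1 : E)) = id := funext conjSub_one
    rw [this, Set.image_id]
  · funext x
    change a.2 (1⁻¹ * x * 1) = a.2 x
    rw [inv_one, one_mul, mul_one]

theorem ac_mul (e f : E) (a : Pr E) : ac (e * f) a = ac e (ac f a) := by
  refine Prod.ext ?_ ?_
  · change conjSub (e * f) '' a.1 = conjSub e '' (conjSub f '' a.1)
    rw [← Set.image_comp]
    congr 1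
    exact funext fun P => conjSub_mul e f P
  · funext x
    change a.2 ((e * f)⁻¹ * x * (e * f)) = a.2 (f⁻¹ * (e⁻¹ * x * e) * f)
    congr 1
    group

/-- conjugacy of pairs under `G` -/
def prS (G : Subgroup E) : Setoid (Pr E) where
  r a b := ∃ g ∈ G, b = ac g a
  iseqv := {
    refl := fun a => ⟨1, G.one_mem, (ac_one a).symm⟩
    symm := by
      rintro a b ⟨g, hg, rfl⟩
      exact ⟨g⁻¹, G.inv_mem hg, by rw [← ac_mul, inv_mul_cancel, ac_one]⟩
    trans := by
      rintro a b c ⟨g, hg, rfl⟩ ⟨h, hh, rfl⟩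
      exact ⟨h * g, G.mul_mem hh hg, (ac_mul h g a).symm⟩ }

theorem prS_iff {G : Subgroup E} {a b : Pr E} :
    (Quotient.mk (prS G) a = Quotient.mk (prS G) b) ↔ ∃ g ∈ G, b = ac g a :=
  ⟨fun h => Quotient.exact h, fun h => Quotient.sound h⟩

/-- the action on classes -/
def acQ (G : Subgroup E) [hG : G.Normal] (e : E) : Quotient (prS G) → Quotient (prS G) :=
  Quotient.lift (fun a => Quotient.mk (prS G) (ac e a)) (by
    rintro a b ⟨g, hg, rfl⟩
    refine prS_iff.2 ⟨e * g * e⁻¹, hG.conj_mem g hg e, ?_⟩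
    rw [← ac_mul, ← ac_mul]
    congr 1
    group)

theorem acQ_mk (G : Subgroup E) [G.Normal] (e : E) (a : Pr E) :
    acQ G e (Quotient.mk _ a) = Quotient.mk _ (ac e a) := rfl

theorem acQ_mul (G : Subgroup E) [G.Normal] (e f : E) (x : Quotient (prS G)) :
    acQ G (e * f) x = acQ G e (acQ G f x) := by
  obtain ⟨a, rfl⟩ := Quotient.exists_rep x
  rw [acQ_mk, acQ_mk, acQ_mk, ac_mul]

theorem acQ_mem (G : Subgroup E) [G.Normal] {g : E} (hg : g ∈ G) (x : Quotient (prS G)) :
    acQ G g x = x := by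
  obtain ⟨a, rfl⟩ := Quotient.exists_rep x
  rw [acQ_mk]
  exact (prS_iff.2 ⟨g, hg, rfl⟩).symm

theorem acQ_congr (G : Subgroup E) [G.Normal] {e f : E} (h : (e : E ⧸ G) = f)
    (x : Quotient (prS G)) : acQ G e x = acQ G f x := by
  have hn : e⁻¹ * f ∈ G := QuotientGroup.eq.1 h
  have h1 : f = e * (e⁻¹ * f) := by group
  rw [h1, acQ_mul, acQ_mem G hn]

/-! ### stabilisers -/

theorem ng_mem (G : Subgroup E) [hG : G.Normal] (σ : Set (Subgroup E)) (e x : E) :
    x ∈ NG G (conjSub e '' σ) ↔ e⁻¹ * x * e ∈ NG G σ := by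
  unfold NG
  rw [Subgroup.mem_inf, Subgroup.mem_inf, chainStabilizer_conj, mem_conjSub]
  refine and_congr_left fun _ => ?_
  constructor
  · intro h
    have h1 := hG.conj_mem x h e⁻¹
    rwa [inv_inv] at h1
  · intro h
    have h1 := hG.conj_mem _ h e
    have e1 : e * (e⁻¹ * x * e) * e⁻¹ = x := by group
    rwa [e1] at h1

/-- conjugation `N_G(eσ) → N_G(σ)` -/
def cc (G : Subgroup E) [G.Normal] (σ : Set (Subgroup E)) (e : E) :
    NG G (conjSub e '' σ) ≃* NG G σ where
  toFun n := ⟨e⁻¹ * n * e, (ng_mem G σ e _).1 n.2⟩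
  invFun n := ⟨e * n * e⁻¹, (ng_mem G σ e _).2 (by
    have e1 : e⁻¹ * (e * n * e⁻¹) * e = n := by group
    rw [e1]
    exact n.2)⟩
  left_inv n := Subtype.ext (by
    change e * (e⁻¹ * n * e) * e⁻¹ = n
    group)
  right_inv n := Subtype.ext (by
    change e⁻¹ * (e * n * e⁻¹) * e = n
    group)
  map_mul' a b := Subtype.ext (by
    change e⁻¹ * (a * b) * e = e⁻¹ * a * e * (e⁻¹ * b * e)
    group)

theorem chain_fix [Finite E] {p : ℕ} {σ : Set (Subgroup E)} (hσ : IsPChain p σ) {h : E} :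
    conjSub h '' σ = σ ↔ h ∈ chainStabilizer σ := by
  rw [mem_chainStabilizer]
  constructor
  · intro h3 P hP
    have hgP : conjSub h P ∈ σ := by
      rw [← h3]
      exact ⟨P, hP, rfl⟩
    have hcard : Nat.card (conjSub h P) = Nat.card P :=
      Nat.card_congr
        (Subgroup.equivMapOfInjective _ _ (MulAut.conj h).injective).toEquiv.symm
    rcases hσ.chain.total hgP hP with h4 | h4
    · exact Subgroup.eq_of_le_of_card_ge h4 hcard.ge
    · exact (Subgroup.eq_of_le_of_card_ge h4 hcard.le).symm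
  · intro h3
    ext P
    constructor
    · rintro ⟨Q, hQ, rfl⟩
      rw [h3 Q hQ]
      exact hQ
    · intro hP
      exact ⟨P, hP, h3 P hP⟩

end act

section pd

variable {F : Type} [Field F] {E : Type} [Group E]

/-- invariance of a property of functions on groups under isomorphisms -/
def Iso (Q : ∀ (J : Type) [Group J], (J → ℂ) → Prop) : Prop :=
  ∀ (J J' : Type) [Group J] [Group J'] (e : J ≃* J') (χ : J' → ℂ), Q J' χ →
    Q J (fun x => χ (e x))

/-- the pairs which are counted -/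
structure Pd (Q : ∀ (J : Type) [Group J], (J → ℂ) → Prop) (p : ℕ)
    (red : integralClosure ℤ ℂ →+* F) (G : Subgroup E) (B : (G → F) → F) (a : Pr E) : Prop where
  ch : IsPChain p a.1
  le : ∀ P ∈ a.1, P ≤ G
  supp : ∀ x, x ∉ NG G a.1 → a.2 x = 0
  irr : IsIrreducibleCharacter (fun x : NG G a.1 => a.2 x)
  q : Q (NG G a.1) (fun x : NG G a.1 => a.2 x)
  ind : IndB red G a.1 (fun x : NG G a.1 => a.2 x) B

/-- conjugation with `e` fixes the block `B` -/
def Be (G : Subgroup E) (B : (G → F) → F) (e : E) : Prop :=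
  ∀ f f' : G → F, IsClassFun f → (∀ x y : G, (y : E) = e * x * e⁻¹ → f' y = f x) → B f' = B f

theorem be_mem (G : Subgroup E) (B : (G → F) → F) {g : E} (hg : g ∈ G) : Be G B g := by
  intro f f' hf h
  congr 1
  funext y
  have h1 : g⁻¹ * (y : E) * g ∈ G := G.mul_mem (G.mul_mem (G.inv_mem hg) y.2) hg
  rw [h ⟨_, h1⟩ y (by
    change (y : E) = g * (g⁻¹ * (y : E) * g) * g⁻¹
    group)]
  have h2 := hf ⟨g⁻¹, G.inv_mem hg⟩ y
  rw [← h2]
  congr 1
  apply Subtype.ext
  change g⁻¹ * (y : E) * g = g⁻¹ * (y : E) * (g⁻¹)⁻¹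
  rw [inv_inv]

variable [Finite E]

theorem Pd.conj {Q : ∀ (J : Type) [Group J], (J → ℂ) → Prop} (hQ : Iso Q) {p : ℕ}
    {red : integralClosure ℤ ℂ →+* F} {G : Subgroup E} [hG : G.Normal] {B : (G → F) → F} {a : Pr E}
    (h : Pd Q p red G B a) {e : E} (hB : Be G B e) : Pd Q p red G B (ac e a) where
  ch := h.ch.conj e
  le := by
    rintro _ ⟨P, hP, rfl⟩ x hx
    rw [mem_conjSub] at hx
    have h1 := hG.conj_mem _ (h.le P hP hx) e
    have e1 : e * (e⁻¹ * x * e) * e⁻¹ = x := by group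
    rwa [e1] at h1
  supp := fun x hx => h.supp _ (fun h1 => hx ((ng_mem G a.1 e x).2 h1))
  irr := irr_comp (cc G a.1 e) h.irr
  q := hQ _ _ (cc G a.1 e) _ h.q
  ind := by
    intro f hf
    have hc : ∀ x : G, e * (x : E) * e⁻¹ ∈ G := fun x => hG.conj_mem x x.2 e
    let f₁ : G → F := fun x => f ⟨e * x * e⁻¹, hc x⟩
    have hf₁ : IsClassFun f₁ := by
      intro b x
      have h1 := hf ⟨e * b * e⁻¹, hc b⟩ ⟨e * x * e⁻¹, hc x⟩
      change f _ = f _
      rw [← h1]
      congr 1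
      apply Subtype.ext
      change e * ((b : E) * x * (b : E)⁻¹) * e⁻¹ = e * b * e⁻¹ * (e * x * e⁻¹) * (e * b * e⁻¹)⁻¹
      group
    have h1 := h.ind f₁ hf₁
    have h2 := centralValue_comp red (cc G a.1 e) (fun x : NG G a.1 => a.2 x)
      (irr_class h.irr) (fun x : NG G a.1 => f₁ ⟨x, ng_le G a.1 x.2⟩)
      (fun b x => hf₁ ⟨b, ng_le G _ b.2⟩ ⟨x, ng_le G _ x.2⟩)
    have h3 : (fun x : NG G (conjSub e '' a.1) => f ⟨x, ng_le G _ x.2⟩) =
        fun x : NG G (conjSub e '' a.1) => f₁ ⟨cc G a.1 e x, ng_le G a.1 (cc G a.1 e x).2⟩ := by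
      funext x
      change f _ = f _
      congr 1
      apply Subtype.ext
      change (x : E) = e * (e⁻¹ * x * e) * e⁻¹
      group
    change centralValue red (fun x : NG G (conjSub e '' a.1) => a.2 (e⁻¹ * x * e))
      (fun x : NG G (conjSub e '' a.1) => f ⟨x, ng_le G _ x.2⟩) = B f
    rw [h3]
    have h4 : centralValue red (fun x : NG G (conjSub e '' a.1) => a.2 (e⁻¹ * x * e))
      (fun x : NG G (conjSub e '' a.1) => f₁ ⟨cc G a.1 e x, ng_le G a.1 (cc G a.1 e x).2⟩) =
      B f₁ := h2.trans h1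
    rw [h4]
    refine (hB f₁ f hf₁ fun x y hxy => ?_).symm
    change f y = f _
    congr 1
    exact Subtype.ext hxy

/-- the elements of `E` which fix the class of a pair -/
theorem fix_iff {Q : ∀ (J : Type) [Group J], (J → ℂ) → Prop} {p : ℕ}
    {red : integralClosure ℤ ℂ →+* F} {G : Subgroup E} [hG : G.Normal] {B : (G → F) → F} {a : Pr E}
    (ha : Pd Q p red G B a) (e : E) :
    acQ G e (Quotient.mk _ a) = Quotient.mk _ a ↔
      (e : E ⧸ G) ∈ NEbar G a.1 (fun x : NG G a.1 => a.2 x) := by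
  constructor
  · intro h
    obtain ⟨g, hg, h1⟩ := prS_iff.1 h
    rw [← ac_mul] at h1
    have h2 : conjSub (g * e) '' a.1 = a.1 := (congrArg Prod.fst h1).symm
    have h3 := (chain_fix ha.ch).1 h2
    refine ⟨g * e, ⟨h3, ?_⟩, ?_⟩
    · intro n n' hn
      have h4 := congrFun (congrArg Prod.snd h1) (n' : E)
      change a.2 n' = a.2 ((g * e)⁻¹ * n' * (g * e)) at h4
      change a.2 n' = a.2 n
      rw [h4, hn]
      congr 1
      group
    · change ((g * e : E) : E ⧸ G) = (e : E ⧸ G)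
      refine QuotientGroup.eq.2 ?_
      have h5 := hG.conj_mem _ (G.inv_mem hg) e⁻¹
      have e1 : (g * e)⁻¹ * e = e⁻¹ * g⁻¹ * (e⁻¹)⁻¹ := by group
      rw [e1]
      exact h5
  · rintro ⟨h, ⟨h1, h2⟩, h3⟩
    have h4 : ac h a = a := by
      refine Prod.ext ((chain_fix ha.ch).2 h1) ?_
      funext x
      change a.2 (h⁻¹ * x * h) = a.2 x
      have h5 : x ∈ NG G a.1 ↔ h⁻¹ * x * h ∈ NG G a.1 := by
        have := ng_mem G a.1 h x
        rwa [(chain_fix ha.ch).2 h1] at this
      by_cases hx : x ∈ NG G a.1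
      · refine (h2 ⟨_, h5.1 hx⟩ ⟨x, hx⟩ ?_).symm
        change x = h * (h⁻¹ * x * h) * h⁻¹
        group
      · rw [ha.supp x hx, ha.supp _ (fun h6 => hx (h5.2 h6))]
    have h5 : ((e : E) : E ⧸ G) = (h : E ⧸ G) := h3.symm
    rw [acQ_congr G h5, acQ_mk, h4]

end pd

end Pool.Agent.D0H4.BR
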