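import Pool.Agent.D0H4.BR.Act

/-!
# The alternating sums count the classes of pairs
-/

set_option autoImplicit false
set_option linter.unusedSectionVars false

open scoped Classical BigOperators

noncomputable section

namespace Pool.Agent.D0H4.BR

open Pool.Agent.Y63.NV
open Pool.Agent.Y63.KR
open Pool.Agent.Y63.AWC (IsIrreducibleCharacter irr_comp)
open Pool.Agent.Y171.NV (irr_fin)
open Pool.Agent.R674.Tw (Fixes GCh NG NE NEbar ng_le ng_conj IndB invSum gchSetoid)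
open Pool.Agent.N20.DI

section

variable {F : Type} [Field F] {E : Type} [Group E]

/-- the characters which are counted for the chain `σ` -/
abbrev T (Q : ∀ (J : Type) [Group J], (J → ℂ) → Prop) (red : integralClosure ℤ ℂ →+* F)
    (G : Subgroup E) [G.Normal] (B : (G → F) → F) (V : Subgroup (E ⧸ G)) (σ : Set (Subgroup E)) :
    Type :=
  {χ : NG G σ → ℂ // IsIrreducibleCharacter χ ∧ Q (NG G σ) χ ∧ V ≤ NEbar G σ χ ∧ IndB red G σ χ B}

/-- extension by zero -/
def exZ (G : Subgroup E) (σ : Set (Subgroup E)) (χ : NG G σ → ℂ) : E → ℂ :=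
  fun x => if h : x ∈ NG G σ then χ ⟨x, h⟩ else 0

theorem exZ_res (G : Subgroup E) (σ : Set (Subgroup E)) (χ : NG G σ → ℂ) :
    (fun x : NG G σ => exZ G σ χ x) = χ := by
  funext x
  unfold exZ
  rw [dif_pos x.2]

/-- the sign of a class -/
def sg {G : Subgroup E} (x : Quotient (prS G)) : ℤ := (-1) ^ x.out.1.ncard

theorem sg_mk {G : Subgroup E} (a : Pr E) : sg (Quotient.mk (prS G) a) = (-1) ^ a.1.ncard := by
  unfold sg
  obtain ⟨g, -, h⟩ := prS_iff.1 (Quotient.out_eq (Quotient.mk (prS G) a)).symm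
  rw [h]
  change (-1) ^ (conjSub g '' a.1).ncard = _
  rw [ncard_conj]

theorem sg_ac {G : Subgroup E} [G.Normal] (e : E) (x : Quotient (prS G)) :
    sg (acQ G e x) = sg x := by
  obtain ⟨a, rfl⟩ := Quotient.exists_rep x
  rw [acQ_mk, sg_mk, sg_mk]
  change (-1) ^ (conjSub e '' a.1).ncard = _
  rw [ncard_conj]

/-- the classes of the pairs which are counted -/
def PdQ (Q : ∀ (J : Type) [Group J], (J → ℂ) → Prop) (p : ℕ) (red : integralClosure ℤ ℂ →+* F)
    (G : Subgroup E) (B : (G → F) → F) (x : Quotient (prS G)) : Prop :=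
  ∃ a, Quotient.mk (prS G) a = x ∧ Pd Q p red G B a

variable [Finite E]

theorem PdQ.conj {Q : ∀ (J : Type) [Group J], (J → ℂ) → Prop} (hQ : Iso Q) {p : ℕ}
    {red : integralClosure ℤ ℂ →+* F} {G : Subgroup E} [hG : G.Normal] {B : (G → F) → F}
    {x : Quotient (prS G)} (h : PdQ Q p red G B x) {e : E} (hB : Be G B e) :
    PdQ Q p red G B (acQ G e x) := by
  obtain ⟨a, rfl, ha⟩ := h
  exact ⟨ac e a, rfl, ha.conj hQ hB⟩

theorem pd_ex {Q : ∀ (J : Type) [Group J], (J → ℂ) → Prop} {p : ℕ}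
    {red : integralClosure ℤ ℂ →+* F} {G : Subgroup E} [hG : G.Normal] {B : (G → F) → F}
    {V : Subgroup (E ⧸ G)} (σ : GCh p G) (χ : T Q red G B V σ.1) :
    Pd Q p red G B (σ.1, exZ G σ.1 χ.1) where
  ch := σ.2.1
  le := σ.2.2
  supp := fun x hx => dif_neg hx
  irr := by
    change IsIrreducibleCharacter (fun x : NG G σ.1 => exZ G σ.1 χ.1 x)
    rw [exZ_res]
    exact χ.2.1
  q := by
    change Q (NG G σ.1) (fun x : NG G σ.1 => exZ G σ.1 χ.1 x)
    rw [exZ_res]
    exact χ.2.2.1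
  ind := by
    change IndB red G σ.1 (fun x : NG G σ.1 => exZ G σ.1 χ.1 x) B
    rw [exZ_res]
    exact χ.2.2.2.2

/-- the classes which are fixed by `V` -/
abbrev XV (Q : ∀ (J : Type) [Group J], (J → ℂ) → Prop) (p : ℕ) (red : integralClosure ℤ ℂ →+* F)
    (G : Subgroup E) [G.Normal] (B : (G → F) → F) (V : Subgroup (E ⧸ G)) : Type :=
  {x : Quotient (prS G) // PdQ Q p red G B x ∧ ∀ e : E, (e : E ⧸ G) ∈ V → acQ G e x = x}

/-- the map -/
def Phi (Q : ∀ (J : Type) [Group J], (J → ℂ) → Prop) (p : ℕ) (red : integralClosure ℤ ℂ →+* F)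
    (G : Subgroup E) [G.Normal] (B : (G → F) → F) (V : Subgroup (E ⧸ G))
    (s : Σ c : Quotient (gchSetoid p G), T Q red G B V c.out.1) : XV Q p red G B V :=
  ⟨Quotient.mk _ (s.1.out.1, exZ G s.1.out.1 s.2.1), ⟨_, rfl, pd_ex s.1.out s.2⟩, by
    intro e he
    rw [fix_iff (pd_ex s.1.out s.2)]
    have h1 : (fun x : NG G s.1.out.1 => exZ G s.1.out.1 s.2.1 x) = s.2.1 := exZ_res _ _ _
    change (e : E ⧸ G) ∈ NEbar G s.1.out.1 (fun x : NG G s.1.out.1 => exZ G s.1.out.1 s.2.1 x)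
    rw [h1]
    exact s.2.2.2.2.1 he⟩

theorem phi_sg (Q : ∀ (J : Type) [Group J], (J → ℂ) → Prop) (p : ℕ)
    (red : integralClosure ℤ ℂ →+* F)
    (G : Subgroup E) [G.Normal] (B : (G → F) → F) (V : Subgroup (E ⧸ G))
    (s : Σ c : Quotient (gchSetoid p G), T Q red G B V c.out.1) :
    sg (Phi Q p red G B V s).1 = (-1) ^ s.1.out.1.ncard := sg_mk _

theorem phi_inj (Q : ∀ (J : Type) [Group J], (J → ℂ) → Prop) (p : ℕ)
    (red : integralClosure ℤ ℂ →+* F)
    (G : Subgroup E) [G.Normal] (B : (G → F) → F) (V : Subgroup (E ⧸ G)) :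
    Function.Injective (Phi Q p red G B V) := by
  rintro ⟨c, χ⟩ ⟨c', χ'⟩ h
  have h1 := congrArg Subtype.val h
  change Quotient.mk (prS G) (c.out.1, exZ G c.out.1 χ.1) =
    Quotient.mk (prS G) (c'.out.1, exZ G c'.out.1 χ'.1) at h1
  obtain ⟨g, hg, h2⟩ := prS_iff.1 h1
  have h3 : c'.out.1 = conjSub g '' c.out.1 := congrArg Prod.fst h2
  have h4 : c = c' := by
    rw [← Quotient.out_eq c, ← Quotient.out_eq c']
    exact Quotient.sound ⟨g, hg, h3⟩
  subst h4
  have h5 : g ∈ NG G c.out.1 := Subgroup.mem_inf.2 ⟨hg, (chain_fix c.out.2.1).1 h3.symm⟩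
  have h6 : χ = χ' := by
    apply Subtype.ext
    funext x
    have h7 := congrFun (congrArg Prod.snd h2) (x : E)
    change exZ G c.out.1 χ'.1 x = exZ G c.out.1 χ.1 (g⁻¹ * x * g) at h7
    have h8 := congrFun (exZ_res G c.out.1 χ'.1) x
    have hx : g⁻¹ * (x : E) * g ∈ NG G c.out.1 :=
      Subgroup.mul_mem _ (Subgroup.mul_mem _ (Subgroup.inv_mem _ h5) x.2) h5
    have h9 := congrFun (exZ_res G c.out.1 χ.1) ⟨_, hx⟩
    change exZ G c.out.1 χ.1 (g⁻¹ * x * g) = _ at h9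
    rw [← h8, h7, h9]
    refine Pool.Agent.Y286.NV.irr_class χ.2.1 _ _ ?_
    rw [isConj_iff]
    refine ⟨⟨g⁻¹, Subgroup.inv_mem _ h5⟩, ?_⟩
    apply Subtype.ext
    change g⁻¹ * (x : E) * (g⁻¹)⁻¹ = g⁻¹ * x * g
    rw [inv_inv]
  rw [h6]

theorem phi_surj {Q : ∀ (J : Type) [Group J], (J → ℂ) → Prop} (hQ : Iso Q) (p : ℕ)
    (red : integralClosure ℤ ℂ →+* F)
    (G : Subgroup E) [G.Normal] (B : (G → F) → F) (V : Subgroup (E ⧸ G)) :
    Function.Surjective (Phi Q p red G B V) := by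
  rintro ⟨x, ⟨a, rfl, ha⟩, hV⟩
  let c : Quotient (gchSetoid p G) := Quotient.mk _ ⟨a.1, ha.ch, ha.le⟩
  obtain ⟨g, hg, hc⟩ : ∃ g ∈ G, c.out.1 = conjSub g '' a.1 :=
    Quotient.exact (Quotient.out_eq c).symm
  have ha' := ha.conj hQ (be_mem G B hg)
  have hq : Quotient.mk (prS G) (ac g a) = Quotient.mk (prS G) a := (prS_iff.2 ⟨g, hg, rfl⟩).symm
  have he : ac g a = (c.out.1, (ac g a).2) := Prod.ext hc.symm rfl
  rw [← hq] at hV
  generalize (ac g a).2 = φ at he
  rw [he] at ha' hq hV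
  have h1 : V ≤ NEbar G c.out.1 (fun x : NG G c.out.1 => φ x) := by
    intro v hv
    obtain ⟨e, rfl⟩ := QuotientGroup.mk_surjective v
    exact (fix_iff ha' e).1 (hV e hv)
  refine ⟨⟨c, ⟨fun x => φ x, ha'.irr, ha'.q, h1, ha'.ind⟩⟩, ?_⟩
  apply Subtype.ext
  change Quotient.mk (prS G) (c.out.1, exZ G c.out.1 (fun x => φ x)) = Quotient.mk (prS G) a
  rw [← hq]
  congr 2
  funext x
  unfold exZ
  by_cases hx : x ∈ NG G c.out.1
  · rw [dif_pos hx]
  · rw [dif_neg hx]
    exact (ha'.supp x hx).symm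

theorem t_fin (Q : ∀ (J : Type) [Group J], (J → ℂ) → Prop) (red : integralClosure ℤ ℂ →+* F)
    (G : Subgroup E) [G.Normal] (B : (G → F) → F) (V : Subgroup (E ⧸ G)) (σ : Set (Subgroup E)) :
    Finite (T Q red G B V σ) := by
  have hX := irr_fin (NG G σ)
  exact Finite.of_injective (fun χ : T Q red G B V σ =>
    (⟨χ.1, χ.2.1⟩ : {χ : NG G σ → ℂ // IsIrreducibleCharacter χ}))
    (fun a b h => Subtype.ext (congrArg (fun t => t.1) h))

theorem xv_fin {Q : ∀ (J : Type) [Group J], (J → ℂ) → Prop} (hQ : Iso Q) (p : ℕ)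
    (red : integralClosure ℤ ℂ →+* F)
    (G : Subgroup E) [G.Normal] (B : (G → F) → F) (V : Subgroup (E ⧸ G)) :
    Finite (XV Q p red G B V) := by
  have := fun c : Quotient (gchSetoid p G) => t_fin Q red G B V c.out.1
  have h1 : Finite (Quotient (gchSetoid p G)) := inferInstance
  exact Finite.of_surjective _ (phi_surj hQ p red G B V)

/-- the alternating sum is the number of the classes fixed by `V`, with signs -/
theorem sum_eq {Q : ∀ (J : Type) [Group J], (J → ℂ) → Prop} (hQ : Iso Q) (p : ℕ)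
    (red : integralClosure ℤ ℂ →+* F)
    (G : Subgroup E) [G.Normal] (B : (G → F) → F) (V : Subgroup (E ⧸ G)) :
    invSum p G (fun σ => (Nat.card (T Q red G B V σ) : ℤ)) =
      ∑ᶠ x : XV Q p red G B V, sg x.1 := by
  have h0 := fun c : Quotient (gchSetoid p G) => t_fin Q red G B V c.out.1
  have h1 : Finite (Quotient (gchSetoid p G)) := inferInstance
  have h2 := xv_fin hQ p red G B V
  let i1 : Fintype (Quotient (gchSetoid p G)) := Fintype.ofFinite _
  let i2 : Fintype (XV Q p red G B V) := Fintype.ofFinite _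
  let i3 : ∀ c : Quotient (gchSetoid p G), Fintype (T Q red G B V c.out.1) :=
    fun c => Fintype.ofFinite _
  unfold invSum
  rw [finsum_eq_sum_of_fintype, finsum_eq_sum_of_fintype]
  have h3 : ∀ c : Quotient (gchSetoid p G),
      (-1) ^ c.out.1.ncard * (Nat.card (T Q red G B V c.out.1) : ℤ) =
      ∑ _t : T Q red G B V c.out.1, (-1) ^ c.out.1.ncard := by
    intro c
    rw [Finset.sum_const, Finset.card_univ, Nat.card_eq_fintype_card, nsmul_eq_mul, mul_comm]
  rw [Finset.sum_congr rfl fun c _ => h3 c]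
  have h4 := Fintype.sum_sigma (fun s : Σ c : Quotient (gchSetoid p G), T Q red G B V c.out.1 =>
    ((-1) ^ s.1.out.1.ncard : ℤ))
  rw [← h4]
  refine Fintype.sum_bijective (Phi Q p red G B V) ⟨phi_inj Q p red G B V, phi_surj hQ p red G B V⟩
    _ _ fun s => ?_
  exact (phi_sg Q p red G B V s).symm

end

end Pool.Agent.D0H4.BR
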