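import Mathlib

/-!
# Free actions of a quotient
-/

set_option autoImplicit false

open scoped Classical

noncomputable section

namespace Pool.Agent.D0H4.BR

/-- a finite set of points of `Ω` on which `W` acts with the stabiliser `S` for all points -/
theorem free_dvd {A Ω : Type} [Group A] [MulAction A Ω] (W S : Subgroup A) [Finite W]
    (Z : Set Ω) [Finite Z] (hZ : ∀ w ∈ W, ∀ x ∈ Z, w • x ∈ Z)
    (hs : ∀ x ∈ Z, ∀ w ∈ W, w ∈ S ↔ w • x = x) : S.relIndex W ∣ Nat.card Z := by
  let iW : MulAction W Z :=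
    { smul := fun w x => ⟨w.1 • x.1, hZ w.1 w.2 x.1 x.2⟩
      one_smul := fun x => Subtype.ext (one_smul A x.1)
      mul_smul := fun a b x => Subtype.ext (mul_smul a.1 b.1 x.1) }
  have hsm : ∀ (w : W) (x : Z), (w • x).1 = w.1 • x.1 := fun _ _ => rfl
  let iZ : Fintype Z := Fintype.ofFinite Z
  let iF : Fintype W := Fintype.ofFinite W
  have h1 := MulAction.sum_card_fixedBy_eq_card_orbits_mul_card_group W Z
  have h2 : ∀ w : W, Fintype.card (MulAction.fixedBy Z w) =
      if w ∈ S.subgroupOf W then Fintype.card Z else 0 := by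
    intro w
    by_cases hw : w ∈ S.subgroupOf W
    · rw [if_pos hw]
      have h3 : MulAction.fixedBy Z w = Set.univ := by
        ext x
        refine ⟨fun _ => trivial, fun _ => ?_⟩
        exact Subtype.ext ((hs x.1 x.2 w.1 w.2).1 hw)
      rw [Fintype.card_congr (Equiv.setCongr h3)]
      exact Fintype.card_congr (Equiv.Set.univ _)
    · rw [if_neg hw, Fintype.card_eq_zero_iff]
      refine ⟨fun x => hw ?_⟩
      exact (hs x.1.1 x.1.2 w.1 w.2).2 (congrArg Subtype.val x.2)
  simp only [h2] at h1
  rw [Finset.sum_ite, Finset.sum_const_zero, add_zero, Finset.sum_const, smul_eq_mul] at h1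
  have h3 : (Finset.univ.filter fun w : W => w ∈ S.subgroupOf W).card =
      Nat.card (S.subgroupOf W) := by
    rw [Nat.card_eq_fintype_card, Fintype.card_subtype]
  have h4 : Nat.card (S.subgroupOf W) * (S.subgroupOf W).index = Nat.card W :=
    Subgroup.card_mul_index _
  rw [h3, ← Nat.card_eq_fintype_card (α := W), ← h4, ← Nat.card_eq_fintype_card (α := Z)] at h1
  have h5 : 0 < Nat.card (S.subgroupOf W) := Nat.card_pos
  refine ⟨Fintype.card (MulAction.orbitRel.Quotient W Z), ?_⟩
  refine Nat.eq_of_mul_eq_mul_left h5 ?_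
  rw [h1]
  change _ = Nat.card (S.subgroupOf W) * ((S.subgroupOf W).index * _)
  ring

end Pool.Agent.D0H4.BR
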