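import Pool.Agent.D0H4.BR.Gy
import Pool.Agent.D0H4.BR.Fr

/-!
# Exact stabilisers in `E/G × Gal`
-/

set_option autoImplicit false
set_option linter.unusedSectionVars false

open scoped Classical BigOperators

noncomputable section

namespace Pool.Agent.D0H4.BR

open Pool.Agent.Y63.NV
open Pool.Agent.Y63.KR
open Pool.Agent.Y63.AWC (IsIrreducibleCharacter irr_comp)
open Pool.Agent.R674.Tw (Fixes GCh NG NE NEbar ng_le ng_conj IndB invSum gchSetoid)
open Pool.Agent.N20.DI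

section act

variable {E : Type} [Group E]

/-- the action of `E/G` on the classes -/
def aQ (G : Subgroup E) [G.Normal] (y : E ⧸ G) (x : Quotient (prS G)) : Quotient (prS G) :=
  acQ G (Quotient.out y) x

theorem aQ_mk (G : Subgroup E) [G.Normal] (e : E) (x : Quotient (prS G)) :
    aQ G (e : E ⧸ G) x = acQ G e x := by
  apply acQ_congr
  exact Quotient.out_eq _

theorem aQ_one (G : Subgroup E) [G.Normal] (x : Quotient (prS G)) : aQ G 1 x = x := by
  have := aQ_mk G (1 : E) x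
  rw [QuotientGroup.mk_one] at this
  rw [this]
  exact acQ_mem G G.one_mem x

theorem aQ_mul (G : Subgroup E) [G.Normal] (y z : E ⧸ G) (x : Quotient (prS G)) :
    aQ G (y * z) x = aQ G y (aQ G z x) := by
  obtain ⟨e, rfl⟩ := QuotientGroup.mk_surjective y
  obtain ⟨f, rfl⟩ := QuotientGroup.mk_surjective z
  rw [← QuotientGroup.mk_mul, aQ_mk, aQ_mk, aQ_mk, acQ_mul]

variable [Finite E]

/-- the action of `E/G × Gal` -/
@[reducible] def act2 (G : Subgroup E) [G.Normal] :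
    MulAction ((E ⧸ G) × (ZMod (Nat.card E))ˣ) (Quotient (prS G)) where
  smul w x := pwQ G w.2 (aQ G w.1 x)
  one_smul x := by
    change pwQ G 1 (aQ G 1 x) = x
    rw [aQ_one, pwQ_one]
  mul_smul v w x := by
    change pwQ G (v.2 * w.2) (aQ G (v.1 * w.1) x) = pwQ G v.2 (aQ G v.1 (pwQ G w.2 (aQ G w.1 x)))
    obtain ⟨e, he⟩ := QuotientGroup.mk_surjective v.1
    rw [aQ_mul, ← he, aQ_mk, aQ_mk, pwQ_mul, pwQ_ac, ← pwQ_ac G w.2]

end act

section

variable {F : Type} [Field F] {E : Type} [Group E] [Finite E]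

/-- `(y, u)` fixes `(C, ψ)` up to conjugation with `G`: some `h ∈ N_E(C)` with image `y` in `E/G`
satisfies `ψ(h x h⁻¹) = ψ(x^u)` for all `x ∈ N_G(C)`. -/
def Fx (G : Subgroup E) [G.Normal] (σ : Set (Subgroup E)) (χ : NG G σ → ℂ)
    (t : (E ⧸ G) × (ZMod (Nat.card E))ˣ) : Prop :=
  ∃ h ∈ chainStabilizer σ, (h : E ⧸ G) = t.1 ∧
    ∀ x y : NG G σ, (y : E) = h * x * h⁻¹ → χ y = χ (x ^ (t.2 : ZMod (Nat.card E)).val)

theorem fix2_iff {Q : ∀ (J : Type) [Group J], (J → ℂ) → Prop} {p : ℕ}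
    {red : integralClosure ℤ ℂ →+* F} {G : Subgroup E} [hG : G.Normal] {B : (G → F) → F} {a : Pr E}
    (ha : Pd Q p red G B a) (t : (E ⧸ G) × (ZMod (Nat.card E))ˣ) :
    (act2 G).smul t (Quotient.mk _ a) = Quotient.mk _ a ↔
      Fx G a.1 (fun x : NG G a.1 => a.2 x) t := by
  obtain ⟨y, u⟩ := t
  obtain ⟨e, rfl⟩ := QuotientGroup.mk_surjective y
  change pwQ G u (aQ G (e : E ⧸ G) (Quotient.mk _ a)) = _ ↔ _
  rw [aQ_mk, acQ_mk, pwQ_mk]
  constructor
  · intro h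
    obtain ⟨g, hg, h1⟩ := prS_iff.1 h
    rw [← pw_ac, ← ac_mul] at h1
    have h2 : conjSub (g * e) '' a.1 = a.1 := (congrArg Prod.fst h1).symm
    have h3 := (chain_fix ha.ch).1 h2
    refine ⟨g * e, h3, ?_, ?_⟩
    · refine QuotientGroup.eq.2 ?_
      have h5 := hG.conj_mem _ (G.inv_mem hg) e⁻¹
      have e1 : (g * e)⁻¹ * e = e⁻¹ * g⁻¹ * (e⁻¹)⁻¹ := by group
      rw [e1]
      exact h5
    · intro n n' hn
      have h4 := congrFun (congrArg Prod.snd h1) (n' : E)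
      change a.2 n' = a.2 ((g * e)⁻¹ * n' ^ (u : ZMod (Nat.card E)).val * (g * e)) at h4
      change a.2 n' = a.2 ((n : E) ^ (u : ZMod (Nat.card E)).val)
      rw [h4, hn, conj_pow]
      congr 1
      group
  · rintro ⟨h, h1, h2, h3⟩
    have h4 : pw u (ac h a) = a := by
      refine Prod.ext ((chain_fix ha.ch).2 h1) ?_
      funext x
      change a.2 (h⁻¹ * x ^ (u : ZMod (Nat.card E)).val * h) = a.2 x
      have h5 : ∀ z : E, z ∈ NG G a.1 ↔ h⁻¹ * z * h ∈ NG G a.1 := by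
        intro z
        have := ng_mem G a.1 h z
        rwa [(chain_fix ha.ch).2 h1] at this
      have h6 : h⁻¹ * x ^ (u : ZMod (Nat.card E)).val * h =
          (h⁻¹ * x * h) ^ (u : ZMod (Nat.card E)).val := by
        have h7 := conj_pow (i := (u : ZMod (Nat.card E)).val) (a := h⁻¹) (b := x)
        rw [inv_inv] at h7
        exact h7.symm
      by_cases hx : x ∈ NG G a.1
      · rw [h6]
        refine (h3 ⟨_, (h5 x).1 hx⟩ ⟨x, hx⟩ ?_).symm
        change x = h * (h⁻¹ * x * h) * h⁻¹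
        group
      · rw [ha.supp x hx]
        refine ha.supp _ fun h7 => hx ?_
        rw [h6] at h7
        have h8 := pow_unit u (h⁻¹ * x * h)
        have h9 : h⁻¹ * x * h ∈ NG G a.1 := by
          rw [← h8]
          exact Subgroup.pow_mem _ h7 _
        exact (h5 x).2 h9
    have h5 : (e : E ⧸ G) = (h : E ⧸ G) := h2.symm
    rw [← pwQ_mk, ← acQ_mk, acQ_congr G h5, acQ_mk, pwQ_mk, h4]

/-- the exact stabiliser in `E/G × Γ` is `S` -/
def ExS (G : Subgroup E) [G.Normal] (Γ : Subgroup (ZMod (Nat.card E))ˣ)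
    (S : Subgroup ((E ⧸ G) × (ZMod (Nat.card E))ˣ)) (x : Quotient (prS G)) : Prop :=
  ∀ t : (E ⧸ G) × (ZMod (Nat.card E))ˣ, t.2 ∈ Γ → (t ∈ S ↔ (act2 G).smul t x = x)

/-- the counts -/
def kEx (p : ℕ) (red : integralClosure ℤ ℂ →+* F) (G : Subgroup E) [G.Normal]
    (B : (G → F) → F) (d : ℕ) (Γ : Subgroup (ZMod (Nat.card E))ˣ)
    (S : Subgroup ((E ⧸ G) × (ZMod (Nat.card E))ˣ)) (σ : Set (Subgroup E)) : ℕ :=
  Nat.card {χ : NG G σ → ℂ // IsIrreducibleCharacter χ ∧ HasDef p d χ ∧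
    (∀ t : (E ⧸ G) × (ZMod (Nat.card E))ˣ, t.2 ∈ Γ → (t ∈ S ↔ Fx G σ χ t)) ∧
    IndB red G σ χ B}

theorem sum_ex (p : ℕ) (red : integralClosure ℤ ℂ →+* F) (G : Subgroup E) [G.Normal]
    (B : (G → F) → F) (d : ℕ) (Γ : Subgroup (ZMod (Nat.card E))ˣ)
    (S : Subgroup ((E ⧸ G) × (ZMod (Nat.card E))ˣ)) :
    invSum p G (fun σ => (kEx p red G B d Γ S σ : ℤ)) =
      ∑ᶠ x : {x : XV (fun _ _ χ => HasDef p d χ) p red G B (⊥ : Subgroup (E ⧸ G)) //
        ExS G Γ S x.1}, sg x.1.1 := by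
  let Q : ∀ (J : Type) [Group J], (J → ℂ) → Prop := fun _ _ χ => HasDef p d χ
  have h0 := fun c : Quotient (gchSetoid p G) => t_fin Q red G B ⊥ c.out.1
  have h1 : Finite (Quotient (gchSetoid p G)) := inferInstance
  have h2 := xv_fin (iso_def p d) p red G B (⊥ : Subgroup (E ⧸ G))
  let i1 : Fintype (Quotient (gchSetoid p G)) := Fintype.ofFinite _
  let i2 : Fintype (XV Q p red G B ⊥) := Fintype.ofFinite _
  let i3 : ∀ c : Quotient (gchSetoid p G), Fintype (T Q red G B ⊥ c.out.1) :=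
    fun c => Fintype.ofFinite _
  let i4 : Fintype {x : XV Q p red G B ⊥ // ExS G Γ S x.1} := Fintype.ofFinite _
  unfold invSum
  rw [finsum_eq_sum_of_fintype, finsum_eq_sum_of_fintype]
  have h3 : ∀ c : Quotient (gchSetoid p G),
      (-1) ^ c.out.1.ncard * (kEx p red G B d Γ S c.out.1 : ℤ) =
      ∑ t : T Q red G B ⊥ c.out.1,
        if ExS G Γ S (Phi Q p red G B ⊥ ⟨c, t⟩).1 then (-1) ^ c.out.1.ncard else 0 := by
    intro c
    rw [Finset.sum_ite, Finset.sum_const_zero, add_zero, Finset.sum_const, nsmul_eq_mul, mul_comm]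
    congr 2
    rw [← Fintype.card_subtype, ← Nat.card_eq_fintype_card]
    unfold kEx
    have key : ∀ t : T Q red G B ⊥ c.out.1, ExS G Γ S (Phi Q p red G B ⊥ ⟨c, t⟩).1 ↔
        ∀ w : (E ⧸ G) × (ZMod (Nat.card E))ˣ, w.2 ∈ Γ → (w ∈ S ↔ Fx G c.out.1 t.1 w) := by
      intro t
      refine forall_congr' fun w => imp_congr_right fun _ => ?_
      refine iff_congr Iff.rfl ?_
      have h5 := fix2_iff (pd_ex c.out t) w
      have h6 : (fun x : NG G c.out.1 => exZ G c.out.1 t.1 x) = t.1 := exZ_res _ _ _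
      change _ ↔ Fx G c.out.1 (fun x : NG G c.out.1 => exZ G c.out.1 t.1 x) w at h5
      rw [h6] at h5
      exact h5
    exact Nat.card_congr
      { toFun := fun χ => ⟨⟨χ.1, χ.2.1, χ.2.2.1, bot_le, χ.2.2.2.2⟩, (key _).2 χ.2.2.2.1⟩
        invFun := fun χ => ⟨χ.1.1, χ.1.2.1, χ.1.2.2.1, (key _).1 χ.2, χ.1.2.2.2.2⟩
        left_inv := fun χ => rfl
        right_inv := fun χ => rfl }
  rw [Finset.sum_congr rfl fun c _ => h3 c]
  have h4 := Fintype.sum_sigma (fun s : Σ c : Quotient (gchSetoid p G), T Q red G B ⊥ c.out.1 =>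
    (if ExS G Γ S (Phi Q p red G B ⊥ s).1 then ((-1) ^ s.1.out.1.ncard : ℤ) else 0))
  rw [← h4]
  have h5 : ∑ x : {x : XV Q p red G B ⊥ // ExS G Γ S x.1}, sg x.1.1 =
      ∑ x : XV Q p red G B ⊥, if ExS G Γ S x.1 then sg x.1 else 0 := by
    rw [← Finset.sum_filter]
    exact (Finset.sum_subtype _ (fun x => by simp) (fun x : XV Q p red G B ⊥ => sg x.1)).symm
  rw [h5]
  refine Fintype.sum_bijective (Phi Q p red G B ⊥) ⟨phi_inj Q p red G B ⊥,
    phi_surj (iso_def p d) p red G B ⊥⟩ _ _ fun s => ?_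
  rw [phi_sg Q p red G B ⊥ s]

end

end Pool.Agent.D0H4.BR
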