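import Pool.Agent.D0H4.BR.Ex

/-!
# Divisibility of the sums over exact stabilisers
-/

set_option autoImplicit false
set_option linter.unusedSectionVars false

open scoped Classical BigOperators

noncomputable section

namespace Pool.Agent.D0H4.BR

open Pool.Agent.Y63.NV
open Pool.Agent.Y63.KR
open Pool.Agent.Y63.AWC (IsIrreducibleCharacter irr_comp)
open Pool.Agent.R674.Tw (Fixes GCh NG NE NEbar ng_le ng_conj IndB invSum gchSetoid ce ce_coe
  indB_conj mem_NEbar mk_conj' stab_conj_mem)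
open Pool.Agent.N20.DI

section

variable {F : Type} [Field F] {E : Type} [Group E] [Finite E]

theorem fx_conj (G : Subgroup E) [G.Normal] (σ : Set (Subgroup E)) {g : E}
    (hg : g ∈ G) (χ : NG G (conjSub g '' σ) → ℂ) (t : (E ⧸ G) × (ZMod (Nat.card E))ˣ) :
    Fx G σ (fun n => χ (ce G σ hg n)) t ↔ Fx G (conjSub g '' σ) χ t := by
  constructor
  · rintro ⟨h, h1, h2, h3⟩
    refine ⟨g * h * g⁻¹, ?_, ?_, ?_⟩
    · rw [stab_conj_mem]
      have e : g⁻¹ * (g * h * g⁻¹) * g = h := by group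
      rw [e]
      exact h1
    · rw [mk_conj' G hg, h2]
    · intro n n' hn
      have h4 := h3 ((ce G σ hg).symm n) ((ce G σ hg).symm n') (by
        change g⁻¹ * (n' : E) * g = h * (g⁻¹ * (n : E) * g) * h⁻¹
        rw [hn]
        group)
      simp only [map_pow, MulEquiv.apply_symm_apply] at h4
      exact h4
  · rintro ⟨h, h1, h2, h3⟩
    refine ⟨g⁻¹ * h * g, (stab_conj_mem σ g h).1 h1, ?_, ?_⟩
    · have h4 := mk_conj' G (G.inv_mem hg) h
      rw [inv_inv] at h4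
      rw [h4, h2]
    · intro n n' hn
      have h4 := h3 (ce G σ hg n) (ce G σ hg n') (by
        rw [ce_coe, ce_coe, hn]
        group)
      simp only [map_pow]
      exact h4

theorem kEx_conj (p : ℕ) (red : integralClosure ℤ ℂ →+* F) (G : Subgroup E) [G.Normal]
    (B : (G → F) → F) (d : ℕ) (Γ : Subgroup (ZMod (Nat.card E))ˣ)
    (S : Subgroup ((E ⧸ G) × (ZMod (Nat.card E))ˣ)) (σ : Set (Subgroup E)) {g : E} (hg : g ∈ G) :
    kEx p red G B d Γ S (conjSub g '' σ) = kEx p red G B d Γ S σ := by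
  refine Nat.card_congr
    { toFun := fun χ => ⟨fun n => χ.1 (ce G σ hg n), irr_comp (ce G σ hg) χ.2.1,
        iso_def p d _ _ (ce G σ hg) χ.1 χ.2.2.1, ?_, ?_⟩
      invFun := fun χ => ⟨fun n => χ.1 ((ce G σ hg).symm n), irr_comp (ce G σ hg).symm χ.2.1,
        iso_def p d _ _ (ce G σ hg).symm χ.1 χ.2.2.1, ?_, ?_⟩
      left_inv := fun χ => ?_
      right_inv := fun χ => ?_ }
  · intro t ht
    rw [fx_conj]
    exact χ.2.2.2.1 t ht
  · rw [indB_conj red G σ hg χ.1 χ.2.1]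
    exact χ.2.2.2.2
  · intro t ht
    rw [← fx_conj G σ hg]
    simp only [MulEquiv.symm_apply_apply]
    exact χ.2.2.2.1 t ht
  · rw [← indB_conj red G σ hg _ (irr_comp (ce G σ hg).symm χ.2.1)]
    simp only [MulEquiv.symm_apply_apply]
    exact χ.2.2.2.2
  · apply Subtype.ext
    funext n
    simp only [MulEquiv.apply_symm_apply]
  · apply Subtype.ext
    funext n
    simp only [MulEquiv.symm_apply_apply]

/-- the counts by the stabiliser of the chain -/
def kEx2 (p : ℕ) (red : integralClosure ℤ ℂ →+* F) (G : Subgroup E) [G.Normal]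
    (B : (G → F) → F) (d : ℕ) (Γ : Subgroup (ZMod (Nat.card E))ˣ)
    (S : Subgroup ((E ⧸ G) × (ZMod (Nat.card E))ˣ)) (J : Subgroup E) : ℕ :=
  Nat.card {χ : ↥(G ⊓ J) → ℂ // IsIrreducibleCharacter χ ∧ HasDef p d χ ∧
    (∀ t : (E ⧸ G) × (ZMod (Nat.card E))ˣ, t.2 ∈ Γ → (t ∈ S ↔ ∃ h ∈ J, (h : E ⧸ G) = t.1 ∧
      ∀ x y : ↥(G ⊓ J), (y : E) = h * x * h⁻¹ →
        χ y = χ (x ^ (t.2 : ZMod (Nat.card E)).val))) ∧
    ∀ f : G → F, IsClassFun f →
      centralValue red χ (fun x => f ⟨x, (Subgroup.mem_inf.1 x.2).1⟩) = B f}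

theorem kEx_eq (p : ℕ) (red : integralClosure ℤ ℂ →+* F) (G : Subgroup E) [G.Normal]
    (B : (G → F) → F) (d : ℕ) (Γ : Subgroup (ZMod (Nat.card E))ˣ)
    (S : Subgroup ((E ⧸ G) × (ZMod (Nat.card E))ˣ)) (σ : Set (Subgroup E)) :
    kEx p red G B d Γ S σ = kEx2 p red G B d Γ S (chainStabilizer σ) := rfl

theorem rad_ex (p : ℕ) [Fact p.Prime] (red : integralClosure ℤ ℂ →+* F) (G : Subgroup E)
    [G.Normal] (B : (G → F) → F) (d : ℕ) (Γ : Subgroup (ZMod (Nat.card E))ˣ)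
    (S : Subgroup ((E ⧸ G) × (ZMod (Nat.card E))ˣ)) :
    radSum p G (fun σ => (kEx p red G B d Γ S σ : ℤ)) =
      invSum p G (fun σ => (kEx p red G B d Γ S σ : ℤ)) :=
  (Pool.Agent.N199.DIRADS.RADS Pool.Agent.N344.DI.RAD p E G _
    (fun g hg σ => by rw [kEx_conj p red G B d Γ S σ hg])
    (fun σ τ h => by rw [kEx_eq, kEx_eq, h])).symm

/-- the divisibility -/
theorem ex_dvd {p : ℕ} [Fact p.Prime] [CharP F p] (red : integralClosure ℤ ℂ →+* F)
    (G : Subgroup E) [G.Normal] (B : (G → F) → F) (d : ℕ) {Γ : Subgroup (ZMod (Nat.card E))ˣ}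
    (hΓ : ∀ u ∈ Γ, (u : ZMod (Nat.card E)).val ≡ 1 [MOD pp p (Nat.card E)])
    {S W : Subgroup ((E ⧸ G) × (ZMod (Nat.card E))ˣ)} (hW : ∀ w ∈ W, w.2 ∈ Γ)
    (hB : ∀ w ∈ W, ∀ e : E, (e : E ⧸ G) = w.1 → Be G B e) (_hSW : S ≤ W)
    (hn : ∀ w ∈ W, ∀ t ∈ S, w * t * w⁻¹ ∈ S) :
    (S.relIndex W : ℤ) ∣ radSum p G (fun σ => (kEx p red G B d Γ S σ : ℤ)) := by
  have hNE : NeZero (Nat.card E) := ⟨Nat.card_pos.ne'⟩
  have hf := xv_fin (iso_def p d) p red G B (⊥ : Subgroup (E ⧸ G))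
  let iA := act2 G
  have hsm : ∀ (t : (E ⧸ G) × (ZMod (Nat.card E))ˣ) (x : Quotient (prS G)),
      t • x = pwQ G t.2 (aQ G t.1 x) := fun _ _ => rfl
  rw [rad_ex, sum_ex, sum_sign (fun x : {x : XV (fun _ _ χ => HasDef p d χ) p red G B
    (⊥ : Subgroup (E ⧸ G)) // ExS G Γ S x.1} => sg x.1.1) fun x => sg_pm x.1.1]
  have key : ∀ s : ℤ, S.relIndex W ∣ Nat.card {x : {x : XV (fun _ _ χ => HasDef p d χ) p red G B
      (⊥ : Subgroup (E ⧸ G)) // ExS G Γ S x.1} // sg x.1.1 = s} := by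
    intro s
    let Z : Set (Quotient (prS G)) :=
      {x | PdQ (fun _ _ χ => HasDef p d χ) p red G B x ∧ ExS G Γ S x ∧ sg x = s}
    have hZV : ∀ x : Quotient (prS G), ∀ e : E, (e : E ⧸ G) ∈ (⊥ : Subgroup (E ⧸ G)) →
        acQ G e x = x := fun x e he =>
      acQ_mem G ((QuotientGroup.eq_one_iff e).1 (Subgroup.mem_bot.1 he)) x
    let eZ : {x : {x : XV (fun _ _ χ => HasDef p d χ) p red G B
        (⊥ : Subgroup (E ⧸ G)) // ExS G Γ S x.1} // sg x.1.1 = s} ≃ Z :=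
      { toFun := fun x => ⟨x.1.1.1, x.1.1.2.1, x.1.2, x.2⟩
        invFun := fun x => ⟨⟨⟨x.1, x.2.1, hZV x.1⟩, x.2.2.1⟩, x.2.2.2⟩
        left_inv := fun x => rfl
        right_inv := fun x => rfl }
    have hZf : Finite Z := Finite.of_equiv _ eZ
    rw [Nat.card_congr eZ]
    refine free_dvd W S Z ?_ ?_
    · rintro w hw x ⟨h1, h2, h3⟩
      refine ⟨?_, ?_, ?_⟩
      · obtain ⟨e, he⟩ := QuotientGroup.mk_surjective w.1
        rw [hsm, ← he, aQ_mk]
        obtain ⟨a, ha, hPa⟩ := h1.conj (iso_def p d) (hB w hw e he)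
        rw [← ha, pwQ_mk]
        exact ⟨_, rfl, hPa.pow (hΓ _ (hW w hw))⟩
      · intro t ht
        change _ ↔ t • w • x = w • x
        have h4 := h2 (w⁻¹ * t * w) (by
          have e1 : (w⁻¹ * t * w).2 = t.2 := by
            change w.2⁻¹ * t.2 * w.2 = t.2
            rw [mul_comm w.2⁻¹, inv_mul_cancel_right]
          rw [e1]
          exact ht)
        change _ ↔ (w⁻¹ * t * w) • x = x at h4
        have h5 : t • w • x = w • x ↔ (w⁻¹ * t * w) • x = x := by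
          rw [mul_smul, mul_smul, inv_smul_eq_iff]
        rw [h5, ← h4]
        constructor
        · intro h6
          have h7 := hn w⁻¹ (W.inv_mem hw) t h6
          rwa [inv_inv] at h7
        · intro h6
          have h7 := hn w hw _ h6
          have e1 : w * (w⁻¹ * t * w) * w⁻¹ = t := by group
          rwa [e1] at h7
      · rw [hsm, pwQ_sg]
        exact (sg_ac _ _).trans h3
    · rintro x ⟨h1, h2, h3⟩ w hw
      exact h2 w (hW w hw)
  exact dvd_sub (Int.natCast_dvd_natCast.2 (key 1)) (Int.natCast_dvd_natCast.2 (key (-1)))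

/-- the sums of the conjecture -/
theorem kdU_ex (p : ℕ) (red : integralClosure ℤ ℂ →+* F) (G : Subgroup E) [G.Normal]
    (B : (G → F) → F) (d : ℕ) (U : Subgroup (E ⧸ G)) (σ : Set (Subgroup E)) :
    kdU p red G B d U σ = kEx p red G B d ⊥ (U.prod ⊥) σ := by
  refine Nat.card_congr (Equiv.subtypeEquivRight fun χ => ?_)
  refine and_congr_right fun _ => and_congr_right fun _ => ?_
  refine and_congr ?_ Iff.rfl
  have h1 : ∀ x : NG G σ, x ^ ((1 : (ZMod (Nat.card E))ˣ) : ZMod (Nat.card E)).val = x := by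
    intro x
    apply Subtype.ext
    change (x : E) ^ ((1 : (ZMod (Nat.card E))ˣ) : ZMod (Nat.card E)).val = x
    rw [Units.val_one, ZMod.val_one_eq_one_mod, pow_mod_natCard, pow_one]
  have h2 : ∀ y : E ⧸ G, y ∈ NEbar G σ χ ↔ Fx G σ χ (y, 1) := by
    intro y
    rw [mem_NEbar]
    unfold Fx
    simp only [h1]
    constructor
    · rintro ⟨h, h3, h4, h5⟩
      exact ⟨h, h3, h4, fun a b hab => h5 a b hab⟩
    · rintro ⟨h, h3, h4, h5⟩
      exact ⟨h, h3, h4, fun a b hab => h5 a b hab⟩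
  constructor
  · rintro h ⟨y, u⟩ hu
    have hu' : u = 1 := Subgroup.mem_bot.1 hu
    subst hu'
    rw [← h2, h, Subgroup.mem_prod]
    exact and_iff_left (Subgroup.one_mem _)
  · intro h
    ext y
    rw [h2, ← h (y, 1) (Subgroup.one_mem _), Subgroup.mem_prod]
    exact and_iff_left (Subgroup.one_mem _)

theorem relIndex_prod {A C : Type} [Group A] [Group C] [Finite A] [Finite C] {U W : Subgroup A}
    (h : U ≤ W) : (U.prod (⊥ : Subgroup C)).relIndex (W.prod ⊥) = U.relIndex W := by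
  have h1 : U.prod (⊥ : Subgroup C) ≤ W.prod ⊥ := Subgroup.prod_mono h le_rfl
  have h2 := Subgroup.card_mul_index ((U.prod (⊥ : Subgroup C)).subgroupOf (W.prod ⊥))
  have h3 := Subgroup.card_mul_index (U.subgroupOf W)
  have h4 : Nat.card ((U.prod (⊥ : Subgroup C)).subgroupOf (W.prod ⊥)) =
      Nat.card (U.prod (⊥ : Subgroup C)) := Nat.card_congr (Subgroup.subgroupOfEquivOfLe h1).toEquiv
  have h5 : Nat.card (U.subgroupOf W) = Nat.card U :=
    Nat.card_congr (Subgroup.subgroupOfEquivOfLe h).toEquiv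
  have h6 : ∀ V : Subgroup A, Nat.card (V.prod (⊥ : Subgroup C)) = Nat.card V := by
    intro V
    rw [Nat.card_congr (Subgroup.prodEquiv V (⊥ : Subgroup C)).toEquiv, Nat.card_prod]
    simp
  rw [h4, h6, h6] at h2
  rw [h5] at h3
  have h7 : 0 < Nat.card U := Nat.card_pos
  exact Nat.eq_of_mul_eq_mul_left h7 (h2.trans h3.symm)

/-- the sums of Q1 -/
theorem q1_dvd {p : ℕ} [Fact p.Prime] [CharP F p] (red : integralClosure ℤ ℂ →+* F)
    (G : Subgroup E) [G.Normal] (B : (G → F) → F) (d : ℕ) {U W : Subgroup (E ⧸ G)}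
    (hB : InvBl G (W.comap (QuotientGroup.mk' G)) B) (hUW : U ≤ W)
    (hn : ∀ w ∈ W, ∀ u ∈ U, w * u * w⁻¹ ∈ U) :
    (U.relIndex W : ℤ) ∣ radSum p G (fun σ => (kdU p red G B d U σ : ℤ)) := by
  have hNE : NeZero (Nat.card E) := ⟨Nat.card_pos.ne'⟩
  have h0 : radSum p G (fun σ => (kdU p red G B d U σ : ℤ)) =
      radSum p G (fun σ => (kEx p red G B d ⊥ (U.prod ⊥) σ : ℤ)) := by
    congr 1
    funext σ
    rw [kdU_ex]
  rw [h0, ← relIndex_prod (C := (ZMod (Nat.card E))ˣ) hUW]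
  refine ex_dvd red G B d (fun u hu => ?_) (fun w hw => hw.2) (fun w hw e he => ?_)
    (Subgroup.prod_mono hUW le_rfl) ?_
  · rw [Subgroup.mem_bot.1 hu, Units.val_one, ZMod.val_one_eq_one_mod]
    exact (Nat.mod_modEq 1 _).of_dvd (Nat.ordCompl_dvd _ _)
  · refine hB e ?_
    change (e : E ⧸ G) ∈ W
    rw [he]
    exact hw.1
  · rintro w ⟨hw1, hw2⟩ t ⟨ht1, ht2⟩
    refine ⟨hn _ hw1 _ ht1, ?_⟩
    exact Subgroup.mul_mem _ (Subgroup.mul_mem _ hw2 ht2) (Subgroup.inv_mem _ hw2)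

end

end Pool.Agent.D0H4.BR
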