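import Pool.Agent.D0H4.BR.Mk
import Pool.Agent.Y63.AWC.Deg

/-!
# The sum over all defects
-/

set_option autoImplicit false
set_option linter.unusedSectionVars false

open scoped Classical BigOperators

noncomputable section

namespace Pool.Agent.D0H4.BR

open Pool.Agent.Y63.NV
open Pool.Agent.Y63.KR
open Pool.Agent.Y63.AWC (IsIrreducibleCharacter irr_comp)
open Pool.Agent.Y171.NV (irr_fin card_fib)
open Pool.Agent.R674.Tw (Fixes GCh NG NE NEbar ng_le ng_conj IndB invSum gchSetoid kGe)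
open Pool.Agent.N20.DI

/-- the defect of an irreducible character -/
theorem exists_def (p : ℕ) {J : Type} [Group J] [Finite J] {χ : J → ℂ}
    (h : IsIrreducibleCharacter χ) :
    ∃ D : ℕ, D ≤ Nat.card J ∧ ∀ d : ℕ, HasDef p d χ ↔ D = d := by
  let i : Fintype J := Fintype.ofFinite J
  obtain ⟨n, hn⟩ : ∃ n : ℕ, χ 1 = (n : ℂ) := by
    obtain ⟨V, _, _, _, ρ, _, rfl⟩ := h
    exact ⟨_, ρ.char_one⟩
  have hd : n ∣ Nat.card J := Pool.Agent.Y63.AWC.deg_dvd h hn
  have hJ : Nat.card J ≠ 0 := Nat.card_pos.ne'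
  have hn0 : n ≠ 0 := fun h0 => hJ (Nat.eq_zero_of_zero_dvd (h0 ▸ hd))
  have hle : n.factorization p ≤ (Nat.card J).factorization p :=
    (Nat.factorization_le_iff_dvd hn0 hJ).2 hd p
  refine ⟨(Nat.card J).factorization p - n.factorization p, ?_, fun d => ?_⟩
  · have h1 : (Nat.card J).factorization p < Nat.card J := Nat.factorization_lt p hJ
    omega
  · constructor
    · rintro ⟨m, hm, hmd⟩
      have h1 : (m : ℂ) = n := by rw [← hm, hn]
      have h2 : m = n := by exact_mod_cast h1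
      subst h2
      omega
    · rintro rfl
      exact ⟨n, hn, by omega⟩

section

variable {F : Type} [Field F] {E : Type} [Group E] [Finite E]

theorem sum_kd (p : ℕ) (red : integralClosure ℤ ℂ →+* F) (G : Subgroup E) [G.Normal]
    (B : (G → F) → F) (V : Subgroup (E ⧸ G)) (σ : Set (Subgroup E)) {N : ℕ}
    (hN : Nat.card E < N) :
    ∑ d ∈ Finset.range N, (kdGe p red G B d V σ : ℤ) = (kGe red G B V σ : ℤ) := by
  have hX := irr_fin (NG G σ)
  have hX' : Finite {χ : NG G σ → ℂ // IsIrreducibleCharacter χ ∧ V ≤ NEbar G σ χ ∧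
      IndB red G σ χ B} :=
    Finite.of_injective (fun χ : {χ : NG G σ → ℂ // IsIrreducibleCharacter χ ∧
        V ≤ NEbar G σ χ ∧ IndB red G σ χ B} =>
      (⟨χ.1, χ.2.1⟩ : {χ : NG G σ → ℂ // IsIrreducibleCharacter χ}))
      (fun a b h => Subtype.ext (congrArg (fun t => t.1) h))
  have hdef := fun χ : {χ : NG G σ → ℂ // IsIrreducibleCharacter χ ∧ V ≤ NEbar G σ χ ∧
      IndB red G σ χ B} => exists_def p χ.2.1
  choose r hr hr' using hdef
  have hE : Nat.card (NG G σ) ≤ Nat.card E := Nat.le_of_dvd Nat.card_pos (Subgroup.card_subgroup_dvd_card _)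
  have h1 := card_fib r (Finset.range N) (fun χ => Finset.mem_range.2
    (((hr χ).trans hE).trans_lt hN)) (fun _ => True)
  have h2 : kGe red G B V σ = Nat.card {χ : {χ : NG G σ → ℂ // IsIrreducibleCharacter χ ∧
      V ≤ NEbar G σ χ ∧ IndB red G σ χ B} // True} :=
    Nat.card_congr (Equiv.subtypeUnivEquiv fun _ => trivial).symm
  rw [h2, h1]
  push_cast
  refine Finset.sum_congr rfl fun d _ => ?_
  norm_cast
  unfold kdGe
  exact Nat.card_congr
    { toFun := fun χ => ⟨⟨χ.1, χ.2.1, χ.2.2.2.1, χ.2.2.2.2⟩, (hr' _ d).1 χ.2.2.1⟩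
      invFun := fun χ => ⟨χ.1.1, χ.1.2.1, (hr' _ d).2 χ.2, χ.1.2.2.1, χ.1.2.2.2⟩
      left_inv := fun χ => rfl
      right_inv := fun χ => rfl }

theorem invSum_sum (p : ℕ) (G : Subgroup E) (s : Finset ℕ) (f : ℕ → Set (Subgroup E) → ℤ) :
    ∑ d ∈ s, invSum p G (f d) = invSum p G (fun σ => ∑ d ∈ s, f d σ) := by
  have h1 : Finite (Quotient (gchSetoid p G)) := inferInstance
  let i1 : Fintype (Quotient (gchSetoid p G)) := Fintype.ofFinite _
  unfold invSum
  simp only [finsum_eq_sum_of_fintype]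
  rw [Finset.sum_comm]
  refine Finset.sum_congr rfl fun c _ => ?_
  rw [Finset.mul_sum]

theorem tot (p : ℕ) (red : integralClosure ℤ ℂ →+* F) (G : Subgroup E) [G.Normal]
    (B : (G → F) → F) (V : Subgroup (E ⧸ G)) (hs : ∀ d : ℕ, Nat.card E < d →
      invSum p G (fun σ => (kdGe p red G B d V σ : ℤ)) = 0) :
    ∑ᶠ d : ℕ, invSum p G (fun σ => (kdGe p red G B d V σ : ℤ)) =
      invSum p G (fun σ => (kGe red G B V σ : ℤ)) := by
  rw [finsum_eq_sum_of_support_subset (s := Finset.range (Nat.card E + 1))]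
  · rw [invSum_sum p G _ (fun d σ => (kdGe p red G B d V σ : ℤ))]
    congr 1
    funext σ
    exact sum_kd p red G B V σ (Nat.lt_succ_self _)
  · intro d hd
    rw [Finset.coe_range, Set.mem_Iio]
    by_contra h
    exact hd (hs d (by omega))

/-- the sum over all defects as a count -/
theorem kGe_T (red : integralClosure ℤ ℂ →+* F) (G : Subgroup E) [G.Normal]
    (B : (G → F) → F) (V : Subgroup (E ⧸ G)) (σ : Set (Subgroup E)) :
    kGe red G B V σ = Nat.card (T (fun _ _ _ => True) red G B V σ) := by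
  unfold kGe
  exact Nat.card_congr
    { toFun := fun χ => ⟨χ.1, χ.2.1, trivial, χ.2.2.1, χ.2.2.2⟩
      invFun := fun χ => ⟨χ.1, χ.2.1, χ.2.2.2.1, χ.2.2.2.2⟩
      left_inv := fun χ => rfl
      right_inv := fun χ => rfl }

theorem iso_def (p d : ℕ) : Iso (fun _ _ χ => HasDef p d χ) := by
  intro J J' _ _ e χ h
  have h1 : Nat.card J = Nat.card J' := Nat.card_congr e.toEquiv
  unfold HasDef Dg at h ⊢
  rw [h1]
  simpa only [map_one] using h

end

end Pool.Agent.D0H4.BR
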