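import Pool.Agent.Results.MP_baa4d7_al.OneInequality
import Pool.Agent.R674.Tw.Final
import Pool.Agent.D0H4.BR.Tot

/-!
# Perfect inertial groups suffice
-/

set_option autoImplicit false
set_option linter.unusedSectionVars false

open scoped Classical BigOperators

noncomputable section

namespace Pool.Agent.D0H4.BR

open Pool.Agent.Y63.NV
open Pool.Agent.Y63.KR
open Pool.Agent.Y63.AWC (IsIrreducibleCharacter irr_comp)
open Pool.Agent.R674.Tw (Fixes GCh NG NE NEbar ng_le ng_conj IndB invSum gchSetoid kGe)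
open Pool.Agent.N20.DI
open Pool.Agent.Results.MP_baa4d7_al.OneInequality (Cls All)

variable {F : Type} [Field F]

/-- `s_d(B, U)` -/
abbrev sm (p : ℕ) (red : integralClosure ℤ ℂ →+* F) {E : Type} [Group E]
    (G : Subgroup E) [G.Normal] (U : Subgroup (E ⧸ G)) (B : (G → F) → F) (d : ℕ) : ℤ :=
  Pool.Agent.Results.MP_baa4d7_al.OneInequality.sum p red G U B d

section

variable {p : ℕ} [Fact p.Prime] (red : integralClosure ℤ ℂ →+* F)
variable {E : Type} [Group E] [Finite E] (G : Subgroup E) [G.Normal] (B : (G → F) → F)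

theorem sm_T (U : Subgroup (E ⧸ G)) (d : ℕ) :
    sm p red G U B d =
      invSum p G (fun σ => (Nat.card (T (fun _ _ χ => HasDef p d χ) red G B U σ) : ℤ)) :=
  rad_kdGe red G B d U

theorem sm_inv (U : Subgroup (E ⧸ G)) (d : ℕ) :
    sm p red G U B d = invSum p G (fun σ => (kdGe p red G B d U σ : ℤ)) :=
  rad_kdGe red G B d U

theorem sm_supp (U : Subgroup (E ⧸ G)) {d : ℕ} (hd : Nat.card E < d) : sm p red G U B d = 0 := by
  refine Pool.Agent.N237.DI.rad_supp red (Fact.out : p.Prime) G B U ?_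
  have h1 := Nat.log_le_self 2 (Nat.card G)
  have h2 : Nat.card G ≤ Nat.card E :=
    Nat.le_of_dvd Nat.card_pos (Subgroup.card_subgroup_dvd_card _)
  omega

theorem sm_tot (U : Subgroup (E ⧸ G)) :
    ∑ᶠ d : ℕ, sm p red G U B d = invSum p G (fun σ => (kGe red G B U σ : ℤ)) := by
  have h1 : ∀ d : ℕ, sm p red G U B d = invSum p G (fun σ => (kdGe p red G B d U σ : ℤ)) :=
    fun d => sm_inv red G B U d
  simp only [h1]
  refine tot p red G B U fun d hd => ?_
  rw [← h1]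
  exact sm_supp red G B U hd

/-- the sum over the defects, with radical chains -/
theorem sm_rad (U : Subgroup (E ⧸ G)) :
    ∑ᶠ d : ℕ, sm p red G U B d = radSum p G (fun σ => (kGe red G B U σ : ℤ)) := by
  rw [finsum_eq_sum_of_support_subset (s := Finset.range (Nat.card E + 1))]
  · have h1 : Finite (Quotient (rchSetoid p G)) := inferInstance
    let i1 : Fintype (Quotient (rchSetoid p G)) := Fintype.ofFinite _
    have h2 : ∀ d : ℕ, sm p red G U B d = ∑ c : Quotient (rchSetoid p G),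
        (-1) ^ c.out.1.ncard * (kdGe p red G B d U c.out.1 : ℤ) := fun d =>
      finsum_eq_sum_of_fintype _
    have h3 : radSum p G (fun σ => (kGe red G B U σ : ℤ)) = ∑ c : Quotient (rchSetoid p G),
        (-1) ^ c.out.1.ncard * (kGe red G B U c.out.1 : ℤ) := finsum_eq_sum_of_fintype _
    rw [h3, Finset.sum_congr rfl fun d _ => h2 d, Finset.sum_comm]
    refine Finset.sum_congr rfl fun c _ => ?_
    rw [← Finset.mul_sum, sum_kd p red G B U c.out.1 (Nat.lt_succ_self _)]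
  · intro d hd
    rw [Finset.coe_range, Set.mem_Iio]
    by_contra h
    exact hd (sm_supp red G B U (by omega))

theorem sm_marks {U : Subgroup (E ⧸ G)} (hB : InvBl G (U.comap (QuotientGroup.mk' G)) B) (d : ℕ) :
    ∃ (X₀ X₁ : Type) (_ : Finite X₀) (_ : Finite X₁) (_ : MulAction U X₀) (_ : MulAction U X₁),
      ∀ V ≤ U, sm p red G V B d =
        (Nat.card {x : X₀ // ∀ u : U, u.1 ∈ V → u • x = x} : ℤ) -
          Nat.card {x : X₁ // ∀ u : U, u.1 ∈ V → u • x = x} := by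
  obtain ⟨X₀, X₁, i0, i1, j0, j1, h⟩ := marks (iso_def p d) p red G B U hB
  refine ⟨X₀, X₁, i0, i1, j0, j1, fun V hV => ?_⟩
  rw [sm_T, h V hV]

theorem sm_congr {U V : Subgroup (E ⧸ G)} (hB : InvBl G (U.comap (QuotientGroup.mk' G)) B)
    (hVU : V ≤ U) (hn : ∀ u ∈ U, ∀ v ∈ V, u * v * u⁻¹ ∈ V) {q : ℕ} (hq : q.Prime)
    (hk : ∀ u ∈ U, ∃ k : ℕ, u ^ q ^ k ∈ V) (d : ℕ) :
    (q : ℤ) ∣ sm p red G V B d - sm p red G U B d := by
  rw [sm_T, sm_T]
  exact congr_q (iso_def p d) p red G B U V hB hVU hn hq hk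

theorem tot_congr {U V : Subgroup (E ⧸ G)} (hB : InvBl G (U.comap (QuotientGroup.mk' G)) B)
    (hVU : V ≤ U) (hn : ∀ u ∈ U, ∀ v ∈ V, u * v * u⁻¹ ∈ V) {q : ℕ} (hq : q.Prime)
    (hk : ∀ u ∈ U, ∃ k : ℕ, u ^ q ^ k ∈ V) :
    (q : ℤ) ∣ ∑ᶠ d : ℕ, sm p red G V B d - ∑ᶠ d : ℕ, sm p red G U B d := by
  rw [sm_tot, sm_tot]
  simp only [kGe_T]
  exact congr_q (fun _ _ _ _ _ _ _ => trivial) p red G B U V hB hVU hn hq hk

/-- `|U|` divides `∑_{u ∈ U} ∑_d s_d(B, ⟨u⟩)` -/
theorem tot_burn {U : Subgroup (E ⧸ G)} (hB : InvBl G (U.comap (QuotientGroup.mk' G)) B) :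
    (Nat.card U : ℤ) ∣ ∑ᶠ u : U, ∑ᶠ d : ℕ, sm p red G (Subgroup.zpowers (u : E ⧸ G)) B d := by
  obtain ⟨X₀, X₁, _, _, _, _, h⟩ := marks (Q := fun _ _ _ => True)
    (fun _ _ _ _ _ _ _ => trivial) p red G B U hB
  let iU : Fintype U := Fintype.ofFinite U
  have key : ∀ (X : Type) [Finite X] [MulAction U X], (Nat.card U : ℤ) ∣
      ∑ u : U, (Nat.card {x : X // ∀ w : U, w.1 ∈ Subgroup.zpowers (u : E ⧸ G) → w • x = x} : ℤ) := by
    intro X _ _
    let iX : Fintype X := Fintype.ofFinite X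
    have h1 := MulAction.sum_card_fixedBy_eq_card_orbits_mul_card_group U X
    have h2 : ∀ u : U,
        Nat.card {x : X // ∀ w : U, w.1 ∈ Subgroup.zpowers (u : E ⧸ G) → w • x = x} =
        Fintype.card (MulAction.fixedBy X u) := by
      intro u
      rw [← Nat.card_eq_fintype_card]
      refine Nat.card_congr (Equiv.subtypeEquivRight fun x => ?_)
      constructor
      · intro h3
        exact h3 u (Subgroup.mem_zpowers _)
      · rintro h3 w ⟨k, hk⟩
        have h4 : w = u ^ k := Subtype.ext (by rw [← hk]; rfl)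
        rw [h4]
        have h5 : u ∈ MulAction.stabilizer U x := h3
        exact (MulAction.stabilizer U x).zpow_mem h5 k
    refine ⟨(Fintype.card (MulAction.orbitRel.Quotient U X) : ℤ), ?_⟩
    simp only [h2]
    rw [← Nat.cast_sum, h1, Nat.card_eq_fintype_card]
    push_cast
    ring
  have h3 : ∑ᶠ u : U, ∑ᶠ d : ℕ, sm p red G (Subgroup.zpowers (u : E ⧸ G)) B d =
      ∑ u : U, (Nat.card {x : X₀ // ∀ w : U, w.1 ∈ Subgroup.zpowers (u : E ⧸ G) → w • x = x} : ℤ) -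
      ∑ u : U, (Nat.card {x : X₁ // ∀ w : U, w.1 ∈ Subgroup.zpowers (u : E ⧸ G) → w • x = x} : ℤ) := by
    rw [finsum_eq_sum_of_fintype, ← Finset.sum_sub_distrib]
    refine Finset.sum_congr rfl fun u _ => ?_
    rw [sm_tot]
    simp only [kGe_T]
    exact h _ (by rw [Subgroup.zpowers_le]; exact u.2)
  rw [h3]
  exact dvd_sub (key X₀) (key X₁)

variable [IsAlgClosed F] [CharP F p]

theorem sm_zero {B : (G → F) → F} (hBl : IsBlock B) {U : Subgroup (E ⧸ G)}
    (hB : ¬ InvBl G (U.comap (QuotientGroup.mk' G)) B) (d : ℕ) : sm p red G U B d = 0 := by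
  have h0 : ∀ σ : Set (Subgroup E), (kdGe p red G B d U σ : ℤ) = 0 := by
    intro σ
    have : IsEmpty {χ : NG G σ → ℂ // IsIrreducibleCharacter χ ∧ HasDef p d χ ∧
        U ≤ NEbar G σ χ ∧ IndB red G σ χ B} :=
      ⟨fun χ => hB (parts.inv2 p F red E G U B σ χ.1 hBl χ.2.1 χ.2.2.2.1 χ.2.2.2.2)⟩
    unfold kdGe
    rw [Nat.card_of_isEmpty]
    rfl
  rw [sm_inv]
  unfold invSum
  simp only [h0, mul_zero, finsum_zero]

theorem sm_dvd {B : (G → F) → F} (hBl : IsBlock B) {U V : Subgroup (E ⧸ G)}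
    (hVU : V ≤ U) (hn : ∀ u ∈ U, ∀ v ∈ V, u * v * u⁻¹ ∈ V) {q : ℕ} (hq : q.Prime)
    (hk : ∀ u ∈ U, ∃ k : ℕ, u ^ q ^ k ∈ V) (d : ℕ) (h : sm p red G V B d = 0) :
    (q : ℤ) ∣ sm p red G U B d := by
  by_cases hB : InvBl G (U.comap (QuotientGroup.mk' G)) B
  · have h1 := sm_congr (p := p) red G B hB hVU hn hq hk d
    rw [h, zero_sub, dvd_neg] at h1
    exact h1
  · rw [sm_zero red G hBl hB]
    exact dvd_zero _

theorem tot_dvd {B : (G → F) → F} (hBl : IsBlock B) {U V : Subgroup (E ⧸ G)}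
    (hVU : V ≤ U) (hn : ∀ u ∈ U, ∀ v ∈ V, u * v * u⁻¹ ∈ V) {q : ℕ} (hq : q.Prime)
    (hk : ∀ u ∈ U, ∃ k : ℕ, u ^ q ^ k ∈ V) (h : ∑ᶠ d : ℕ, sm p red G V B d = 0) :
    (q : ℤ) ∣ ∑ᶠ d : ℕ, sm p red G U B d := by
  by_cases hB : InvBl G (U.comap (QuotientGroup.mk' G)) B
  · have h1 := tot_congr (p := p) red G B hB hVU hn hq hk
    rw [h, zero_sub, dvd_neg] at h1
    exact h1
  · have h1 : ∀ d : ℕ, sm p red G U B d = 0 := sm_zero red G hBl hB
    simp only [h1, finsum_zero]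
    exact dvd_zero _

/-- singular cyclic subgroups -/
theorem tot_sing {B : (G → F) → F} (hBl : IsBlock B) {V : Subgroup (E ⧸ G)} (hV : IsCyclic V)
    (hs : ∀ e : E, Subgroup.zpowers (e : E ⧸ G) = V → p ∣ Nat.card ↥(Subgroup.zpowers e ⊓ G)) :
    ∑ᶠ d : ℕ, sm p red G V B d = 0 := by
  rw [sm_tot]
  exact Pool.Agent.R674.Tw.sum_ge red G hV hs hBl

/-- no splitting: `|U|` divides the total sum for `V = 1` -/
theorem tot_nonsplit {B : (G → F) → F} (hBl : IsBlock B) {U : Subgroup (E ⧸ G)}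
    (hB : InvBl G (U.comap (QuotientGroup.mk' G)) B)
    (hs : ∀ e : E, e ∉ G → (e : E ⧸ G) ∈ U → p ∣ Nat.card ↥(Subgroup.zpowers e ⊓ G)) :
    (Nat.card U : ℤ) ∣ ∑ᶠ d : ℕ, sm p red G (⊥ : Subgroup (E ⧸ G)) B d := by
  have h1 := tot_burn (p := p) red G B hB
  rw [finsum_eq_single _ (1 : U)] at h1
  · have h2 : Subgroup.zpowers (((1 : U) : U) : E ⧸ G) = ⊥ := by
      rw [Subgroup.coe_one, Subgroup.zpowers_one_eq_bot]
    rwa [h2] at h1
  · intro u hu
    refine tot_sing red G hBl inferInstance fun e he => ?_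
    refine hs e (fun heG => hu ?_) ?_
    · have h3 : (e : E ⧸ G) = 1 := (QuotientGroup.eq_one_iff e).2 heG
      rw [h3, Subgroup.zpowers_one_eq_bot] at he
      have h4 : (u : E ⧸ G) ∈ (⊥ : Subgroup (E ⧸ G)) := by
        rw [he]
        exact Subgroup.mem_zpowers _
      exact Subtype.ext (Subgroup.mem_bot.1 h4)
    · have h3 : (e : E ⧸ G) ∈ Subgroup.zpowers (u : E ⧸ G) := by
        rw [← he]
        exact Subgroup.mem_zpowers _
      obtain ⟨k, hk⟩ := h3
      rw [← hk]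
      exact U.zpow_mem u.2 k

/-- the ordinary conjecture and cyclic subgroups -/
theorem sm_cyclic (hD : ∀ (H : Type) [Group H] [Finite H], DadeInv p red (⊤ : Subgroup H))
    {B : (G → F) → F} (hBl : IsBlock B) (hB0 : numDzBlock p red B = 0) {V : Subgroup (E ⧸ G)}
    (hV : IsCyclic V) (d : ℕ) : sm p red G V B d = 0 :=
  main_ge red hV (fun _ _ _ _ _ _ Q _ _ _ _ _ => hD Q) hBl hB0 d

end

/-- sequences with `∑ s_d² ≤ 1` -/
theorem seq_zero {s : ℕ → ℤ} (h : ∀ N, ∑ d ∈ Finset.range N, s d ^ 2 ≤ 1)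
    (h0 : ∑ᶠ d : ℕ, s d = 0) : ∀ d, s d = 0 := by
  intro d
  by_contra hd
  have h1 : ∀ e, e ≠ d → s e = 0 := by
    intro e he
    by_contra hes
    have h2 := h (max d e + 1)
    have h3 : s d ^ 2 + s e ^ 2 ≤ ∑ i ∈ Finset.range (max d e + 1), s i ^ 2 := by
      have h4 : ∑ i ∈ ({d, e} : Finset ℕ), s i ^ 2 ≤
          ∑ i ∈ Finset.range (max d e + 1), s i ^ 2 := by
        refine Finset.sum_le_sum_of_subset_of_nonneg ?_ fun i _ _ => sq_nonneg _
        intro i hi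
        rw [Finset.mem_insert, Finset.mem_singleton] at hi
        rw [Finset.mem_range]
        rcases hi with rfl | rfl
        · have := le_max_left i e
          omega
        · have := le_max_right d i
          omega
      rwa [Finset.sum_pair (Ne.symm he)] at h4
    have h5 : 0 < s d ^ 2 := by positivity
    have h6 : 0 < s e ^ 2 := by positivity
    omega
  rw [finsum_eq_single _ d h1] at h0
  exact hd h0

theorem seq_abs {s : ℕ → ℤ} (h : ∀ N, ∑ d ∈ Finset.range N, s d ^ 2 ≤ 1) {q : ℕ} (hq : q.Prime)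
    {d : ℕ} (hd : (q : ℤ) ∣ s d) : s d = 0 := by
  have h1 : s d ^ 2 ≤ 1 := by
    refine le_trans ?_ (h (d + 1))
    exact Finset.single_le_sum (f := fun i => s i ^ 2) (fun i _ => sq_nonneg (s i))
      (Finset.mem_range.2 (Nat.lt_succ_self d))
  have h2 : |s d| ≤ 1 := by
    rw [← sq_le_one_iff_abs_le_one]
    exact h1
  refine Int.eq_zero_of_abs_lt_dvd hd ?_
  have h3 : (1 : ℤ) < q := by exact_mod_cast hq.one_lt
  omega

section

variable {p : ℕ} [Fact p.Prime] [IsAlgClosed F] [CharP F p] (red : integralClosure ℤ ℂ →+* F)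

theorem main_equiv (𝒜 : ∀ (A : Type) [Group A], Prop)
    (h𝒜 : ∀ (A A' : Type) [Group A] [Group A'], (A ≃* A') → 𝒜 A → 𝒜 A') :
    (∀ (E : Type) [Group E] [Finite E] (G : Subgroup E) [G.Normal], 𝒜 (E ⧸ G) →
        DadeInv p red G) ↔
      (∀ ε : ℝ, 0 < ε → ∃ C : ℝ, All p red (fun E _ _ G _ _ => 𝒜 (E ⧸ G))
        (fun n s => ∀ d, (s d : ℝ) ≤ C * (n : ℝ) ^ ε)) ∧
      All p red (fun E _ _ G _ V => 𝒜 (E ⧸ G) ∧ ⁅V, V⁆ = V) (fun _ s => ∑ᶠ d : ℕ, s d = 0) := by
  constructor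
  · intro h
    have h1 : ∀ (E : Type) [Group E] [Finite E] (G : Subgroup E) [G.Normal]
        (U : Subgroup (E ⧸ G)) (B : (G → F) → F), 𝒜 (E ⧸ G) →
        (∀ P : Subgroup G, P.Normal → IsPGroup p P → P = ⊥) → IsBlock B →
        numDzBlock p red B = 0 → ∀ d, sm p red G U B d = 0 := by
      intro E _ _ G _ U B hA h2 h3 h4 d
      exact (Pool.Agent.N237.DI.dadeInv_ge red G).1 (h E G hA) h2 B h3 h4 d U
    refine ⟨fun ε _ => ⟨0, ?_⟩, ?_⟩
    · intro E _ _ G _ U B hA h2 h3 h4 d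
      have h5 := h1 E G U B hA h2 h3 h4 d
      change ((sm p red G U B d : ℤ) : ℝ) ≤ _
      rw [h5, zero_mul]
      norm_num
    · intro E _ _ G _ U B hA h2 h3 h4
      have h5 := h1 E G U B hA.1 h2 h3 h4
      change ∑ᶠ d : ℕ, sm p red G U B d = 0
      simp only [h5, finsum_zero]
  · rintro ⟨hg, ht⟩ E _ _ G _ hA
    have hsq := (Pool.Agent.Results.MP_baa4d7_al.OneInequality.squares_of (p := p) red
      (Pool.Agent.Results.MP_baa4d7_al.OneInequality.squares_inv (fun A _ _ => 𝒜 A)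
        fun A A' _ _ φ _ h => h𝒜 A A' φ h)).2.2.2 hg
    refine (Pool.Agent.N237.DI.dadeInv_ge red G).2 fun hO B hBl hB0 d U => ?_
    change sm p red G U B d = 0
    revert d
    induction U using (wellFounded_lt (α := Subgroup (E ⧸ G))).induction with
    | _ U ih =>
    have hs : ∀ N, ∑ d ∈ Finset.range N, sm p red G U B d ^ 2 ≤ 1 := hsq E G U B hA hO hBl hB0
    by_cases hU : ⁅U, U⁆ = U
    · exact seq_zero hs (ht E G U B ⟨hA, hU⟩ hO hBl hB0)
    · obtain ⟨q, V, hq, hVU, hn, hk⟩ := exists_q U hU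
      intro d
      exact seq_abs hs hq (sm_dvd red G hBl hVU.le hn hq hk d (ih V hVU d))

end

end Pool.Agent.D0H4.BR
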