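import Mathlib

/-!
# Fixed points of a normal subgroup whose quotient is a `q`-group
-/

set_option autoImplicit false

open scoped Classical

noncomputable section

namespace Pool.Agent.D0H4.BR

/-- the number of fixed points of `V` is congruent to that of `U` if `V` is normal in `U` and `U/V` is
a `q`-group. -/
theorem fix_modEq {U : Type} [Group U] {X : Type} [Finite X] [MulAction U X] (V : Subgroup U)
    (hV : V.Normal) {q : ℕ} [Fact q.Prime] (h : ∀ u : U, ∃ k : ℕ, u ^ q ^ k ∈ V) :
    Nat.card {x : X // ∀ v ∈ V, v • x = x} ≡ Nat.card {x : X // ∀ u : U, u • x = x} [MOD q] := by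
  let Y : Type := {x : X // ∀ v ∈ V, v • x = x}
  let iY : MulAction U Y :=
    { smul := fun u y => ⟨u • y.1, fun v hv => by
        have h1 : u⁻¹ * v * u ∈ V := by
          have := hV.conj_mem v hv u⁻¹
          rwa [inv_inv] at this
        have h2 := y.2 _ h1
        rw [← mul_smul]
        have h3 : v * u = u * (u⁻¹ * v * u) := by group
        rw [h3, mul_smul, h2]⟩
      one_smul := fun y => Subtype.ext (one_smul U y.1)
      mul_smul := fun a b y => Subtype.ext (mul_smul a b y.1) }
  have hsm : ∀ (u : U) (y : Y), (u • y).1 = u • y.1 := fun _ _ => rfl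
  let ρ : U →* Equiv.Perm Y := MulAction.toPermHom U Y
  have hρ : ∀ (u : U) (y : Y), ρ u y = u • y := fun _ _ => rfl
  have hR : IsPGroup q ρ.range := by
    rintro ⟨_, u, rfl⟩
    obtain ⟨k, hk⟩ := h u
    refine ⟨k, ?_⟩
    apply Subtype.ext
    change (ρ u) ^ q ^ k = 1
    rw [← map_pow]
    refine Equiv.ext fun y => ?_
    rw [hρ]
    exact Subtype.ext (y.2 _ hk)
  have hfY : Finite Y := inferInstance
  have h1 := hR.card_modEq_card_fixedPoints Y
  refine h1.trans (congrArg (· % q) (Eq.symm ?_))
  refine Nat.card_congr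
    { toFun := fun x => ⟨⟨x.1, fun v _ => x.2 v⟩, ?_⟩
      invFun := fun y => ⟨y.1.1, fun u => ?_⟩
      left_inv := fun x => rfl
      right_inv := fun y => rfl }
  · rintro ⟨_, u, rfl⟩
    exact Subtype.ext (x.2 u)
  · have h2 := y.2 ⟨ρ u, ⟨u, rfl⟩⟩
    exact congrArg Subtype.val h2

/-- sums of signs -/
theorem sum_sign {X : Type} [Finite X] (s : X → ℤ) (hs : ∀ x, s x = 1 ∨ s x = -1) :
    ∑ᶠ x : X, s x = (Nat.card {x : X // s x = 1} : ℤ) - Nat.card {x : X // s x = -1} := by
  let i : Fintype X := Fintype.ofFinite X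
  rw [finsum_eq_sum_of_fintype, Nat.card_eq_fintype_card, Nat.card_eq_fintype_card,
    Fintype.card_subtype, Fintype.card_subtype, Finset.card_filter, Finset.card_filter]
  push_cast
  rw [← Finset.sum_sub_distrib]
  refine Finset.sum_congr rfl fun x _ => ?_
  rcases hs x with h | h
  · rw [h]
    norm_num
  · rw [h]
    norm_num

/-- a finite group which is not perfect has a proper normal subgroup whose quotient is a
`q`-group -/
theorem exists_q {A : Type} [Group A] [Finite A] (U : Subgroup A) (hU : ⁅U, U⁆ ≠ U) :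
    ∃ (q : ℕ) (V : Subgroup A), q.Prime ∧ V < U ∧ (∀ u ∈ U, ∀ v ∈ V, u * v * u⁻¹ ∈ V) ∧
      ∀ u ∈ U, ∃ k : ℕ, u ^ q ^ k ∈ V := by
  have hne : Nontrivial (Abelianization U) := by
    by_contra h
    rw [not_nontrivial_iff_subsingleton] at h
    apply hU
    have h1 : commutator U = ⊤ := by
      rw [eq_top_iff]
      intro u _
      have h2 : Abelianization.of u = 1 := Subsingleton.elim _ _
      rwa [← MonoidHom.mem_ker, Abelianization.ker_of] at h2
    have h3 := congrArg (Subgroup.map U.subtype) h1
    rw [commutator_def, Subgroup.map_commutator] at h3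
    have h4 : (⊤ : Subgroup U).map U.subtype = U := by
      rw [← MonoidHom.range_eq_map, Subgroup.range_subtype]
    rw [h4] at h3
    exact h3
  have hsur : Function.Surjective (Abelianization.of (G := U)) := QuotientGroup.mk_surjective
  have hfin : Finite (Abelianization U) := Finite.of_surjective _ hsur
  have hcard : Nat.card (Abelianization U) ≠ 1 := by
    intro h
    have := Finite.one_lt_card_iff_nontrivial.2 hne
    omega
  obtain ⟨q, hq, hdvd⟩ := Nat.exists_prime_and_dvd hcard
  have : Fact q.Prime := ⟨hq⟩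
  let P : Abelianization U →* Abelianization U := powMonoidHom q
  have hP : P.range ≠ ⊤ := by
    intro h
    have hs : Function.Surjective P := MonoidHom.range_eq_top.1 h
    have hi : Function.Injective P := Finite.injective_iff_surjective.2 hs
    obtain ⟨x, hx⟩ := exists_prime_orderOf_dvd_card' q hdvd
    have h1 : P x = P 1 := by
      rw [map_one]
      change x ^ q = 1
      rw [← hx]
      exact pow_orderOf_eq_one x
    have h2 := hi h1
    rw [h2, orderOf_one] at hx
    exact hq.one_lt.ne hx
  let W : Subgroup U := P.range.comap Abelianization.of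
  have hW : W ≠ ⊤ := by
    intro h
    apply hP
    rw [eq_top_iff]
    intro y _
    obtain ⟨u, rfl⟩ := hsur y
    have : u ∈ W := by rw [h]; trivial
    exact this
  have hWn : W.Normal := inferInstance
  refine ⟨q, W.map U.subtype, hq, ?_, ?_, ?_⟩
  · refine lt_of_le_of_ne (Subgroup.map_subtype_le W) ?_
    intro h
    apply hW
    rw [eq_top_iff]
    intro u _
    have h1 : (u : A) ∈ W.map U.subtype := by
      rw [h]
      exact u.2
    obtain ⟨w, hw, h2⟩ := h1
    have h3 : w = u := Subtype.ext h2
    rwa [← h3]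
  · rintro u hu _ ⟨v, hv, rfl⟩
    exact ⟨⟨u, hu⟩ * v * ⟨u, hu⟩⁻¹, hWn.conj_mem v hv ⟨u, hu⟩, rfl⟩
  · intro u hu
    refine ⟨1, ⟨⟨u, hu⟩ ^ q, ?_, ?_⟩⟩
    · exact ⟨Abelianization.of ⟨u, hu⟩, (map_pow _ _ _).symm⟩
    · rw [pow_one]
      rfl

end Pool.Agent.D0H4.BR
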