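import Pool.Agent.D0H4.BR.Gx
import Pool.Agent.R674.Tw.Final
import Pool.Agent.N344.DI.RAD
import Pool.Agent.N199.DIRADS

/-!
# The Galois congruence
-/

set_option autoImplicit false
set_option linter.unusedSectionVars false

open scoped Classical BigOperators

noncomputable section

namespace Pool.Agent.D0H4.BR

open Pool.Agent.Y63.NV
open Pool.Agent.Y63.KR
open Pool.Agent.Y63.AWC (IsIrreducibleCharacter irr_comp)
open Pool.Agent.R674.Tw (Fixes GCh NG NE NEbar ng_le ng_conj IndB invSum gchSetoid ce nebar_conj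
  indB_conj mem_NEbar)
open Pool.Agent.N20.DI

section

variable {F : Type} [Field F] {E : Type} [Group E] [Finite E]

/-- the signed classes fixed by `V` -/
abbrev YS (Q : ∀ (J : Type) [Group J], (J → ℂ) → Prop) (p : ℕ) (red : integralClosure ℤ ℂ →+* F)
    (G : Subgroup E) [G.Normal] (B : (G → F) → F) (V : Subgroup (E ⧸ G)) (s : ℤ) : Type :=
  {x : XV Q p red G B V // sg x.1 = s}

variable {p : ℕ} [Fact p.Prime] [CharP F p]

/-- the action of the exponents -/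
@[reducible] def actG (d : ℕ) (red : integralClosure ℤ ℂ →+* F) (G : Subgroup E) [G.Normal]
    (B : (G → F) → F) (V : Subgroup (E ⧸ G)) (s : ℤ) {S : Set ℕ}
    (hS : ∀ v ∈ S, v ≡ 1 [MOD pp p (Nat.card E)]) :
    MulAction (gen E S) (YS (fun _ _ χ => HasDef p d χ) p red G B V s) where
  smul u x := ⟨⟨pwQ G u.1 x.1.1, by
      obtain ⟨⟨y, ⟨a, rfl, ha⟩, hV⟩, hs⟩ := x
      refine ⟨⟨pw u.1 a, rfl, ha.pow (gen_mod hS u.2)⟩, fun e he => ?_⟩
      rw [← pwQ_ac, hV e he]⟩, (pwQ_sg _ _).trans x.2⟩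
  one_smul x := Subtype.ext (Subtype.ext (pwQ_one G x.1.1))
  mul_smul u v x := Subtype.ext (Subtype.ext (pwQ_mul G u.1 v.1 x.1.1))

theorem card_fix (d : ℕ) (red : integralClosure ℤ ℂ →+* F) (G : Subgroup E) [G.Normal]
    (B : (G → F) → F) (V : Subgroup (E ⧸ G)) (s : ℤ) {S : Set ℕ}
    (hc : ∀ v ∈ S, v.Coprime (Nat.card E)) {q : ℕ} [Fact q.Prime]
    (hS : ∀ v ∈ S, v ≡ 1 [MOD pp p (Nat.card E)])
    (hq : ∀ v ∈ S, ∃ k : ℕ, v ^ q ^ k ≡ 1 [MOD Nat.card E]) :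
    Nat.card (YS (fun _ _ χ => HasDef p d χ) p red G B V s) ≡
      Nat.card (YS (fun _ _ χ => HasDef p d χ ∧ FixS S χ) p red G B V s) [MOD q] := by
  have hf := xv_fin (iso_def p d) p red G B V
  let _ := actG d red G B V s hS
  have hk : ∀ u : gen E S, ∃ k : ℕ, u ^ q ^ k ∈ (⊥ : Subgroup (gen E S)) := by
    intro u
    obtain ⟨k, hk⟩ := gen_q hq u.2
    exact ⟨k, Subgroup.mem_bot.2 (Subtype.ext hk)⟩
  have h1 := fix_modEq (X := YS (fun _ _ χ => HasDef p d χ) p red G B V s)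
    (⊥ : Subgroup (gen E S)) inferInstance hk
  have h2 : Nat.card {x : YS (fun _ _ χ => HasDef p d χ) p red G B V s //
      ∀ v ∈ (⊥ : Subgroup (gen E S)), v • x = x} =
      Nat.card (YS (fun _ _ χ => HasDef p d χ) p red G B V s) :=
    Nat.card_congr (Equiv.subtypeUnivEquiv fun x v hv => by
      rw [Subgroup.mem_bot.1 hv, one_smul])
  rw [h2] at h1
  refine h1.trans (congrArg (· % q) ?_)
  have hsm : ∀ (u : gen E S) (x : YS (fun _ _ χ => HasDef p d χ) p red G B V s),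
      (u • x).1.1 = pwQ G u.1 x.1.1 := fun _ _ => rfl
  refine Nat.card_congr
    { toFun := fun x => ⟨⟨x.1.1.1, ?_, x.1.1.2.2⟩, x.1.2⟩
      invFun := fun x => ⟨⟨⟨x.1.1, ?_, x.1.2.2⟩, x.2⟩, ?_⟩
      left_inv := fun x => rfl
      right_inv := fun x => rfl }
  · obtain ⟨⟨⟨y, ⟨a, rfl, ha⟩, hV⟩, hs⟩, hx⟩ := x
    have h3 : FixS S (fun x : NG G a.1 => a.2 x) := by
      refine (fix_gen ha hc).1 fun u hu => ?_
      have h4 := hx ⟨u, hu⟩
      have h5 := congrArg (fun t => t.1.1) h4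
      exact h5
    exact ⟨a, rfl, ⟨ha.ch, ha.le, ha.supp, ha.irr, ⟨ha.q, h3⟩, ha.ind⟩⟩
  · obtain ⟨⟨y, ⟨a, rfl, ha⟩, hV⟩, hs⟩ := x
    exact ⟨a, rfl, ⟨ha.ch, ha.le, ha.supp, ha.irr, ha.q.1, ha.ind⟩⟩
  · intro u
    obtain ⟨⟨y, ⟨a, rfl, ha⟩, hV⟩, hs⟩ := x
    have h3 : Pd (fun _ _ χ => HasDef p d χ) p red G B a :=
      ⟨ha.ch, ha.le, ha.supp, ha.irr, ha.q.1, ha.ind⟩
    exact Subtype.ext (Subtype.ext ((fix_gen h3 hc).2 ha.q.2 u.1 u.2))

/-- the congruence -/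
theorem congr_S (d : ℕ) (red : integralClosure ℤ ℂ →+* F) (G : Subgroup E) [G.Normal]
    (B : (G → F) → F) (V : Subgroup (E ⧸ G)) {S : Set ℕ}
    (hc : ∀ v ∈ S, v.Coprime (Nat.card E)) {q : ℕ} (hq' : q.Prime)
    (hS : ∀ v ∈ S, v ≡ 1 [MOD pp p (Nat.card E)])
    (hq : ∀ v ∈ S, ∃ k : ℕ, v ^ q ^ k ≡ 1 [MOD Nat.card E]) :
    (q : ℤ) ∣ invSum p G (fun σ => (Nat.card (T (fun _ _ χ => HasDef p d χ) red G B V σ) : ℤ)) -
      invSum p G
        (fun σ => (Nat.card (T (fun _ _ χ => HasDef p d χ ∧ FixS S χ) red G B V σ) : ℤ)) := by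
  have : Fact q.Prime := ⟨hq'⟩
  have hf1 := xv_fin (iso_def p d) p red G B V
  have hf2 := xv_fin (iso_fix p d S) p red G B V
  rw [sum_eq (iso_def p d), sum_eq (iso_fix p d S),
    sum_sign (fun x : XV _ p red G B V => sg x.1) fun x => sg_pm x.1,
    sum_sign (fun x : XV _ p red G B V => sg x.1) fun x => sg_pm x.1]
  have h1 := Nat.modEq_iff_dvd.1 (card_fix d red G B V 1 hc hS hq).symm
  have h2 := Nat.modEq_iff_dvd.1 (card_fix d red G B V (-1) hc hS hq).symm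
  have e := dvd_sub h1 h2
  have e1 : ∀ a b c d : ℤ, a - b - (c - d) = a - c - (b - d) := by
    intros
    ring
  rw [e1]
  exact e

end

section rad

variable {F : Type} [Field F] {E : Type} [Group E] [Finite E]

/-- the counted characters, by the stabiliser -/
abbrev T2 (Q : ∀ (J : Type) [Group J], (J → ℂ) → Prop) (red : integralClosure ℤ ℂ →+* F)
    (G : Subgroup E) [G.Normal] (B : (G → F) → F) (V : Subgroup (E ⧸ G)) (S : Subgroup E) : Type :=
  {χ : ↥(G ⊓ S) → ℂ // IsIrreducibleCharacter χ ∧ Q ↥(G ⊓ S) χ ∧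
    (∀ y ∈ V, ∃ h ∈ S, (h : E ⧸ G) = y ∧ Fixes h χ) ∧
    ∀ f : G → F, IsClassFun f →
      centralValue red χ (fun x => f ⟨x, (Subgroup.mem_inf.1 x.2).1⟩) = B f}

theorem card_T2 (Q : ∀ (J : Type) [Group J], (J → ℂ) → Prop) (red : integralClosure ℤ ℂ →+* F)
    (G : Subgroup E) [G.Normal] (B : (G → F) → F) (V : Subgroup (E ⧸ G)) (σ : Set (Subgroup E)) :
    Nat.card (T Q red G B V σ) = Nat.card (T2 Q red G B V (chainStabilizer σ)) := by
  refine Nat.card_congr (Equiv.subtypeEquivRight fun χ => ?_)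
  refine and_congr_right fun _ => and_congr_right fun _ => ?_
  refine and_congr ?_ Iff.rfl
  constructor
  · intro h y hy
    exact (mem_NEbar G y σ χ).1 (h hy)
  · intro h y hy
    exact (mem_NEbar G y σ χ).2 (h y hy)

theorem card_conj {Q : ∀ (J : Type) [Group J], (J → ℂ) → Prop} (hQ : Iso Q)
    (red : integralClosure ℤ ℂ →+* F)
    (G : Subgroup E) [G.Normal] (B : (G → F) → F) (V : Subgroup (E ⧸ G)) (σ : Set (Subgroup E))
    {g : E} (hg : g ∈ G) :
    Nat.card (T Q red G B V (conjSub g '' σ)) = Nat.card (T Q red G B V σ) := by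
  refine Nat.card_congr
    { toFun := fun χ => ⟨fun n => χ.1 (ce G σ hg n), irr_comp (ce G σ hg) χ.2.1,
        hQ _ _ (ce G σ hg) χ.1 χ.2.2.1, ?_, ?_⟩
      invFun := fun χ => ⟨fun n => χ.1 ((ce G σ hg).symm n), irr_comp (ce G σ hg).symm χ.2.1,
        hQ _ _ (ce G σ hg).symm χ.1 χ.2.2.1, ?_, ?_⟩
      left_inv := fun χ => ?_
      right_inv := fun χ => ?_ }
  · rw [nebar_conj]
    exact χ.2.2.2.1
  · rw [indB_conj red G σ hg χ.1 χ.2.1]
    exact χ.2.2.2.2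
  · rw [← nebar_conj G σ hg]
    simp only [MulEquiv.symm_apply_apply]
    exact χ.2.2.2.1
  · rw [← indB_conj red G σ hg _ (irr_comp (ce G σ hg).symm χ.2.1)]
    simp only [MulEquiv.symm_apply_apply]
    exact χ.2.2.2.2
  · apply Subtype.ext
    funext n
    simp only [MulEquiv.apply_symm_apply]
  · apply Subtype.ext
    funext n
    simp only [MulEquiv.symm_apply_apply]

/-- radical chains -/
theorem rad_T {Q : ∀ (J : Type) [Group J], (J → ℂ) → Prop} (hQ : Iso Q) (p : ℕ) [Fact p.Prime]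
    (red : integralClosure ℤ ℂ →+* F)
    (G : Subgroup E) [G.Normal] (B : (G → F) → F) (V : Subgroup (E ⧸ G)) :
    radSum p G (fun σ => (Nat.card (T Q red G B V σ) : ℤ)) =
      invSum p G (fun σ => (Nat.card (T Q red G B V σ) : ℤ)) :=
  (Pool.Agent.N199.DIRADS.RADS Pool.Agent.N344.DI.RAD p E G _
    (fun g hg σ => by rw [card_conj hQ red G B V σ hg])
    (fun σ τ h => by rw [card_T2, card_T2, h])).symm

end rad

end Pool.Agent.D0H4.BR
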