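import Pool.Agent.D0H4.BR.Fin
import Pool.Agent.D0H4.BR.Gy

/-!
# Galois congruences for the sums of Dade's invariant conjecture
-/

set_option autoImplicit false
set_option linter.unusedSectionVars false

open scoped Classical BigOperators

noncomputable section

namespace Pool.Agent.D0H4.BR

open Pool.Agent.Y63.NV
open Pool.Agent.Y63.KR
open Pool.Agent.Y63.AWC (IsIrreducibleCharacter irr_comp)
open Pool.Agent.Y171.NV (irr_fin card_fib)
open Pool.Agent.R674.Tw (Fixes GCh NG NE NEbar ng_le ng_conj IndB invSum gchSetoid kGe)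
open Pool.Agent.N20.DI
open Pool.Agent.Results.MP_baa4d7_al.OneInequality (Cls All)

variable {F : Type} [Field F]

/-- the exponents of the Sylow `q`-subgroup of the Galois group of the `n`-th cyclotomic field over
the `n_{p'}`-th one -/
def Exps (p q n : ℕ) : Set ℕ :=
  {v | v.Coprime n ∧ v ≡ 1 [MOD n / p ^ n.factorization p] ∧ ∃ k : ℕ, v ^ q ^ k ≡ 1 [MOD n]}

section

variable {E : Type} [Group E] [Finite E]

theorem sum_kQ (Q : ∀ (J : Type) [Group J], (J → ℂ) → Prop) (p : ℕ)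
    (red : integralClosure ℤ ℂ →+* F) (G : Subgroup E) [G.Normal]
    (B : (G → F) → F) (V : Subgroup (E ⧸ G)) (σ : Set (Subgroup E)) {N : ℕ}
    (hN : Nat.card E < N) :
    ∑ d ∈ Finset.range N,
      (Nat.card (T (fun J _ χ => HasDef p d χ ∧ Q J χ) red G B V σ) : ℤ) =
      (Nat.card (T Q red G B V σ) : ℤ) := by
  have hX' := t_fin Q red G B V σ
  have hdef := fun χ : T Q red G B V σ => exists_def p χ.2.1
  choose r hr hr' using hdef
  have hE : Nat.card (NG G σ) ≤ Nat.card E :=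
    Nat.le_of_dvd Nat.card_pos (Subgroup.card_subgroup_dvd_card _)
  have h1 := card_fib r (Finset.range N) (fun χ => Finset.mem_range.2
    (((hr χ).trans hE).trans_lt hN)) (fun _ => True)
  have h2 : Nat.card (T Q red G B V σ) = Nat.card {χ : T Q red G B V σ // True} :=
    Nat.card_congr (Equiv.subtypeUnivEquiv fun _ => trivial).symm
  rw [h2, h1]
  push_cast
  refine Finset.sum_congr rfl fun d _ => ?_
  norm_cast
  exact Nat.card_congr
    { toFun := fun χ => ⟨⟨χ.1, χ.2.1, χ.2.2.1.2, χ.2.2.2.1, χ.2.2.2.2⟩,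
        (hr' ⟨χ.1, χ.2.1, χ.2.2.1.2, χ.2.2.2.1, χ.2.2.2.2⟩ d).1 χ.2.2.1.1⟩
      invFun := fun χ => ⟨χ.1.1, χ.1.2.1, ⟨(hr' _ d).2 χ.2, χ.1.2.2.1⟩, χ.1.2.2.2.1, χ.1.2.2.2.2⟩
      left_inv := fun χ => rfl
      right_inv := fun χ => rfl }

variable {p : ℕ} [Fact p.Prime] [CharP F p] (red : integralClosure ℤ ℂ →+* F)
variable (G : Subgroup E) [G.Normal] (B : (G → F) → F)

theorem exps_c (p q n : ℕ) : ∀ v ∈ Exps p q n, v.Coprime n := fun _ h => h.1

/-- the Galois congruence for `s_d` -/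
theorem sm_gal (U : Subgroup (E ⧸ G)) {q : ℕ} (hq : q.Prime) (d : ℕ) :
    (q : ℤ) ∣ sm p red G U B d - radSum p G (fun σ => (Nat.card
      (T (fun _ _ χ => HasDef p d χ ∧ FixS (Exps p q (Nat.card E)) χ) red G B U σ) : ℤ)) := by
  rw [sm_T, rad_T (iso_fix p d _)]
  exact congr_S d red G B U (fun v h => h.1) hq (fun v h => h.2.1) (fun v h => h.2.2)

theorem iso_fixS (S : Set ℕ) : Iso (fun _ _ χ => FixS S χ) := by
  intro J J' _ _ e χ h2 v hv x
  change χ (e (x ^ v)) = χ (e x)
  rw [map_pow]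
  exact h2 v hv (e x)

/-- the Galois congruence for the total sum -/
theorem tot_gal (U : Subgroup (E ⧸ G)) {q : ℕ} (hq : q.Prime) :
    (q : ℤ) ∣ ∑ᶠ d : ℕ, sm p red G U B d - radSum p G (fun σ => (Nat.card
      (T (fun _ _ χ => FixS (Exps p q (Nat.card E)) χ) red G B U σ) : ℤ)) := by
  rw [rad_T (iso_fixS _), finsum_eq_sum_of_support_subset (s := Finset.range (Nat.card E + 1))]
  · have h1 : invSum p G (fun σ => (Nat.card
        (T (fun _ _ χ => FixS (Exps p q (Nat.card E)) χ) red G B U σ) : ℤ)) =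
        ∑ d ∈ Finset.range (Nat.card E + 1), invSum p G (fun σ => (Nat.card
          (T (fun _ _ χ => HasDef p d χ ∧ FixS (Exps p q (Nat.card E)) χ) red G B U σ) : ℤ)) := by
      rw [invSum_sum p G _ (fun d σ => (Nat.card
          (T (fun _ _ χ => HasDef p d χ ∧ FixS (Exps p q (Nat.card E)) χ) red G B U σ) : ℤ))]
      congr 1
      funext σ
      exact (sum_kQ (fun _ _ χ => FixS (Exps p q (Nat.card E)) χ) p red G B U σ
        (Nat.lt_succ_self _)).symm
    rw [h1, ← Finset.sum_sub_distrib]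
    refine Finset.dvd_sum fun d _ => ?_
    have h2 := sm_gal (p := p) red G B U hq d
    rwa [rad_T (iso_fix p d _)] at h2
  · intro d hd
    rw [Finset.coe_range, Set.mem_Iio]
    by_contra h
    exact hd (sm_supp red G B U (by omega))

end

theorem seq_tot {s : ℕ → ℤ} (h : ∀ N, ∑ d ∈ Finset.range N, s d ^ 2 ≤ 1) {q : ℕ} (hq : q.Prime)
    (h0 : (q : ℤ) ∣ ∑ᶠ d : ℕ, s d) : ∀ d, s d = 0 := by
  intro d
  by_contra hd
  have h1 : ∀ e, e ≠ d → s e = 0 := by
    intro e he
    by_contra hes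
    have h2 := h (max d e + 1)
    have h3 : s d ^ 2 + s e ^ 2 ≤ ∑ i ∈ Finset.range (max d e + 1), s i ^ 2 := by
      have h4 : ∑ i ∈ ({d, e} : Finset ℕ), s i ^ 2 ≤
          ∑ i ∈ Finset.range (max d e + 1), s i ^ 2 := by
        refine Finset.sum_le_sum_of_subset_of_nonneg ?_ fun i _ _ => sq_nonneg _
        intro i hi
        rw [Finset.mem_insert, Finset.mem_singleton] at hi
        rw [Finset.mem_range]
        rcases hi with rfl | rfl
        · have := le_max_left i e
          omega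
        · have := le_max_right d i
          omega
      rwa [Finset.sum_pair (Ne.symm he)] at h4
    have h5 : 0 < s d ^ 2 := by positivity
    have h6 : 0 < s e ^ 2 := by positivity
    omega
  rw [finsum_eq_single _ d h1] at h0
  exact hd (seq_abs h hq h0)

/-- the total number of the characters fixed by the `q`-part of the Galois group -/
def totq (p q : ℕ) (red : integralClosure ℤ ℂ →+* F) {E : Type} [Group E]
    (G : Subgroup E) [G.Normal] (U : Subgroup (E ⧸ G)) (B : (G → F) → F) : ℤ :=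
  radSum p G (fun σ => (Nat.card {χ : NG G σ → ℂ // IsIrreducibleCharacter χ ∧
    FixS (Exps p q (Nat.card E)) χ ∧ U ≤ NEbar G σ χ ∧ IndB red G σ χ B} : ℤ))

section

variable {p : ℕ} [Fact p.Prime] [IsAlgClosed F] [CharP F p] (red : integralClosure ℤ ℂ →+* F)

theorem main_gal {q : ℕ} (hq : q.Prime) (𝒜 : ∀ (A : Type) [Group A], Prop)
    (h𝒜 : ∀ (A A' : Type) [Group A] [Group A'], (A ≃* A') → 𝒜 A → 𝒜 A') :
    (∀ (E : Type) [Group E] [Finite E] (G : Subgroup E) [G.Normal], 𝒜 (E ⧸ G) →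
        DadeInv p red G) ↔
      (∀ ε : ℝ, 0 < ε → ∃ C : ℝ, All p red (fun E _ _ G _ _ => 𝒜 (E ⧸ G))
        (fun n s => ∀ d, (s d : ℝ) ≤ C * (n : ℝ) ^ ε)) ∧
      ∀ (E : Type) [Group E] [Finite E] (G : Subgroup E) [G.Normal] (V : Subgroup (E ⧸ G))
        (B : (G → F) → F), 𝒜 (E ⧸ G) → ⁅V, V⁆ = V →
        (∀ P : Subgroup G, P.Normal → IsPGroup p P → P = ⊥) → IsBlock B →
        numDzBlock p red B = 0 → (q : ℤ) ∣ totq p q red G V B := by
  constructor
  · intro h
    have h0 := (main_equiv (p := p) red 𝒜 h𝒜).1 h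
    refine ⟨h0.1, ?_⟩
    intro E _ _ G _ V B hA hV hO hBl hB0
    have h1 : ∑ᶠ d : ℕ, sm p red G V B d = 0 := h0.2 E G V B ⟨hA, hV⟩ hO hBl hB0
    have h2 := tot_gal (p := p) red G B V hq
    rw [h1, zero_sub, dvd_neg] at h2
    exact h2
  · rintro ⟨hg, ht⟩
    have hsq := (Pool.Agent.Results.MP_baa4d7_al.OneInequality.squares_of (p := p) red
      (Pool.Agent.Results.MP_baa4d7_al.OneInequality.squares_inv (fun A _ _ => 𝒜 A)
        fun A A' _ _ φ _ h => h𝒜 A A' φ h)).2.2.2 hg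
    refine (main_equiv (p := p) red 𝒜 h𝒜).2 ⟨hg, ?_⟩
    intro E _ _ G _ V B hAV hO hBl hB0
    have hs : ∀ N, ∑ d ∈ Finset.range N, sm p red G V B d ^ 2 ≤ 1 :=
      hsq E G V B hAV.1 hO hBl hB0
    have h1 : (q : ℤ) ∣ ∑ᶠ d : ℕ, sm p red G V B d := by
      have h2 := tot_gal (p := p) red G B V hq
      have h3 : (q : ℤ) ∣ totq p q red G V B := ht E G V B hAV.1 hAV.2 hO hBl hB0
      exact (dvd_iff_dvd_of_dvd_sub h2).2 h3
    have h4 := seq_tot hs hq h1
    change ∑ᶠ d : ℕ, sm p red G V B d = 0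
    simp only [h4, finsum_zero]

end

/-- for `q = p` the characters which are counted are the almost `p`-rational ones -/
theorem fix_almost {p : ℕ} [Fact p.Prime] {n : ℕ} (hn : n ≠ 0) {J : Type} [Group J] [Finite J]
    (hJ : Nat.card J ∣ n) (χ : J → ℂ) :
    FixS (Exps p p n) χ ↔ ∀ v : ℕ, v.Coprime n → v ≡ 1 [MOD p * (n / p ^ n.factorization p)] →
      ∀ x : J, χ (x ^ v) = χ x := by
  have hp : p.Prime := Fact.out
  have hnn : p ^ n.factorization p * (n / p ^ n.factorization p) = n :=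
    Nat.ordProj_mul_ordCompl_eq_self n p
  constructor
  · intro h v hv hv1 x
    refine h v ⟨hv, hv1.of_mul_left p, ⟨n.factorization p, ?_⟩⟩ x
    have h1 : v ^ p ^ n.factorization p ≡ 1 [MOD p ^ n.factorization p] := by
      have h2 : ((p : ℕ) : ℤ) ∣ (v : ℤ) - 1 := by
        have h3 := (Nat.modEq_iff_dvd.1 (hv1.of_mul_right (n / p ^ n.factorization p)).symm)
        simpa using h3
      have h3 := dvd_sub_pow_of_dvd_sub h2 (n.factorization p)
      rw [one_pow] at h3
      refine (Nat.modEq_iff_dvd.2 ?_).symm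
      push_cast
      exact (pow_dvd_pow (p : ℤ) (Nat.le_succ _)).trans h3
    have h2 : v ^ p ^ n.factorization p ≡ 1 [MOD n / p ^ n.factorization p] := by
      have := (hv1.of_mul_left p).pow (p ^ n.factorization p)
      rwa [one_pow] at this
    have hcop : Nat.Coprime (p ^ n.factorization p) (n / p ^ n.factorization p) :=
      (Nat.coprime_ordCompl hp hn).pow_left _
    have h3 := (Nat.modEq_and_modEq_iff_modEq_mul hcop).1 ⟨h1, h2⟩
    rwa [hnn] at h3
  · rintro h v ⟨hv, hv1, k, hk⟩ x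
    by_cases hpn : p ∣ n
    · refine h v hv ?_ x
      have hcop : Nat.Coprime p (n / p ^ n.factorization p) := Nat.coprime_ordCompl hp hn
      refine (Nat.modEq_and_modEq_iff_modEq_mul hcop).1 ⟨?_, hv1⟩
      have h1 : v ^ p ^ k ≡ 1 [MOD p] := hk.of_dvd hpn
      have h2 := (ZMod.natCast_eq_natCast_iff _ _ _).2 h1
      push_cast at h2
      rw [ZMod.pow_card_pow] at h2
      refine (ZMod.natCast_eq_natCast_iff _ _ _).1 ?_
      push_cast
      exact h2
    · have h0 : n.factorization p = 0 := Nat.factorization_eq_zero_of_not_dvd hpn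
      rw [h0, pow_zero, Nat.div_one] at hv1
      have h1 : x ^ v = x := by
        have h2 := (pow_eq_pow_iff_modEq (x := x)).2
          ((hv1.of_dvd hJ).of_dvd (orderOf_dvd_natCard x))
        rwa [pow_one] at h2
      rw [h1]

end Pool.Agent.D0H4.BR
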