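import Pool.Agent.D0H4.BR.Tot
import Pool.Agent.R663.GA.Gal

/-!
# Galois actions on the classes of pairs
-/

set_option autoImplicit false
set_option linter.unusedSectionVars false

open scoped Classical BigOperators

noncomputable section

namespace Pool.Agent.D0H4.BR

open Pool.Agent.Y63.NV
open Pool.Agent.Y63.KR
open Pool.Agent.Y63.AWC (IsIrreducibleCharacter irr_comp)
open Pool.Agent.R674.Tw (Fixes GCh NG NE NEbar ng_le ng_conj IndB invSum gchSetoid)
open Pool.Agent.N20.DI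

section pw

variable {E : Type} [Group E]

/-- the power map on the second component -/
def pw (u : (ZMod (Nat.card E))ˣ) (a : Pr E) : Pr E :=
  (a.1, fun x => a.2 (x ^ (u : ZMod (Nat.card E)).val))

theorem pw_ac (u : (ZMod (Nat.card E))ˣ) (e : E) (a : Pr E) : pw u (ac e a) = ac e (pw u a) := by
  refine Prod.ext rfl ?_
  funext x
  change a.2 (e⁻¹ * x ^ (u : ZMod (Nat.card E)).val * e) =
    a.2 ((e⁻¹ * x * e) ^ (u : ZMod (Nat.card E)).val)
  have h := conj_pow (i := (u : ZMod (Nat.card E)).val) (a := e⁻¹) (b := x)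
  rw [inv_inv] at h
  rw [h]

/-- on classes -/
def pwQ (G : Subgroup E) (u : (ZMod (Nat.card E))ˣ) : Quotient (prS G) → Quotient (prS G) :=
  Quotient.lift (fun a => Quotient.mk (prS G) (pw u a)) (by
    rintro a b ⟨g, hg, rfl⟩
    exact prS_iff.2 ⟨g, hg, pw_ac u g a⟩)

theorem pwQ_mk (G : Subgroup E) (u : (ZMod (Nat.card E))ˣ) (a : Pr E) :
    pwQ G u (Quotient.mk _ a) = Quotient.mk _ (pw u a) := rfl

theorem pwQ_ac (G : Subgroup E) [G.Normal] (u : (ZMod (Nat.card E))ˣ) (e : E)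
    (x : Quotient (prS G)) : pwQ G u (acQ G e x) = acQ G e (pwQ G u x) := by
  obtain ⟨a, rfl⟩ := Quotient.exists_rep x
  rw [acQ_mk, pwQ_mk, pwQ_mk, acQ_mk, pw_ac]

theorem pwQ_sg {G : Subgroup E} (u : (ZMod (Nat.card E))ˣ) (x : Quotient (prS G)) :
    sg (pwQ G u x) = sg x := by
  obtain ⟨a, rfl⟩ := Quotient.exists_rep x
  rw [pwQ_mk, sg_mk, sg_mk]
  rfl

variable [Finite E]

theorem pw_one (a : Pr E) : pw 1 a = a := by
  refine Prod.ext rfl ?_
  funext x
  change a.2 (x ^ ((1 : (ZMod (Nat.card E))ˣ) : ZMod (Nat.card E)).val) = a.2 x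
  rw [Units.val_one, ZMod.val_one_eq_one_mod, pow_mod_natCard, pow_one]

theorem pw_mul (u v : (ZMod (Nat.card E))ˣ) (a : Pr E) : pw (u * v) a = pw u (pw v a) := by
  refine Prod.ext rfl ?_
  funext x
  change a.2 (x ^ ((u * v : (ZMod (Nat.card E))ˣ) : ZMod (Nat.card E)).val) =
    a.2 ((x ^ (u : ZMod (Nat.card E)).val) ^ (v : ZMod (Nat.card E)).val)
  rw [Units.val_mul, ZMod.val_mul, pow_mod_natCard, pow_mul]

theorem pwQ_one (G : Subgroup E) (x : Quotient (prS G)) : pwQ G 1 x = x := by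
  obtain ⟨a, rfl⟩ := Quotient.exists_rep x
  rw [pwQ_mk, pw_one]

theorem pwQ_mul (G : Subgroup E) (u v : (ZMod (Nat.card E))ˣ) (x : Quotient (prS G)) :
    pwQ G (u * v) x = pwQ G u (pwQ G v x) := by
  obtain ⟨a, rfl⟩ := Quotient.exists_rep x
  rw [pwQ_mk, pwQ_mk, pwQ_mk, pw_mul]

theorem pow_unit (u : (ZMod (Nat.card E))ˣ) (x : E) :
    (x ^ (u : ZMod (Nat.card E)).val) ^ ((u⁻¹ : (ZMod (Nat.card E))ˣ) : ZMod (Nat.card E)).val = x := by
  rw [← pow_mul, ← pow_mod_natCard, ← ZMod.val_mul, ← Units.val_mul, mul_inv_cancel, Units.val_one,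
    ZMod.val_one_eq_one_mod, pow_mod_natCard, pow_one]

end pw

section gal

variable {F : Type} [Field F] {E : Type} [Group E] [Finite E]

/-- the `p'`-part -/
abbrev pp (p n : ℕ) : ℕ := n / p ^ n.factorization p

theorem Pd.pow {p : ℕ} [Fact p.Prime] [CharP F p] {d : ℕ}
    {red : integralClosure ℤ ℂ →+* F} {G : Subgroup E} [hG : G.Normal] {B : (G → F) → F} {a : Pr E}
    (h : Pd (fun _ _ χ => HasDef p d χ) p red G B a) {u : (ZMod (Nat.card E))ˣ}
    (hu : (u : ZMod (Nat.card E)).val ≡ 1 [MOD pp p (Nat.card E)]) :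
    Pd (fun _ _ χ => HasDef p d χ) p red G B (pw u a) := by
  let v : ℕ := (u : ZMod (Nat.card E)).val
  have hcop : v.Coprime (Nat.card E) := ZMod.val_coe_unit_coprime u
  have hd : Nat.card (NG G a.1) ∣ Nat.card E := Subgroup.card_subgroup_dvd_card _
  have hcop' : v.Coprime (Nat.card (NG G a.1)) := hcop.coprime_dvd_right hd
  have hi : Fintype (NG G a.1) := Fintype.ofFinite _
  exact {
    ch := h.ch
    le := h.le
    supp := fun x hx => h.supp _ (fun h1 => hx (by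
      have h2 := pow_unit u x
      rw [← h2]
      exact Subgroup.pow_mem _ h1 _))
    irr := Pool.Agent.R663.GA.irr_pow h.irr hcop'
    q := by
      obtain ⟨n, hn, hn'⟩ := h.q
      refine ⟨n, ?_, hn'⟩
      change a.2 ((1 : E) ^ v) = n
      rw [one_pow]
      exact hn
    ind := by
      intro f hf
      rw [← h.ind f hf]
      refine Pool.Agent.R663.GA.cv_pow red h.irr _ hcop' ?_
      exact Nat.ModEq.of_dvd (Nat.ordCompl_dvd_ordCompl_of_dvd hd p) hu }

/-- the classes fixed by the power map -/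
theorem pw_fix {p : ℕ} {d : ℕ}
    {red : integralClosure ℤ ℂ →+* F} {G : Subgroup E} [hG : G.Normal] {B : (G → F) → F} {a : Pr E}
    (h : Pd (fun _ _ χ => HasDef p d χ) p red G B a) (u : (ZMod (Nat.card E))ˣ) :
    pwQ G u (Quotient.mk _ a) = Quotient.mk _ a ↔
      ∀ x : NG G a.1, a.2 ((x : E) ^ (u : ZMod (Nat.card E)).val) = a.2 x := by
  constructor
  · intro h1 x
    obtain ⟨g, hg, h2⟩ := prS_iff.1 h1
    have h3 : conjSub g '' a.1 = a.1 := (congrArg Prod.fst h2).symm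
    have h4 : g ∈ NG G a.1 := Subgroup.mem_inf.2 ⟨hg, (chain_fix h.ch).1 h3⟩
    have h5 := congrFun (congrArg Prod.snd h2) (x : E)
    change a.2 x = a.2 ((g⁻¹ * x * g) ^ (u : ZMod (Nat.card E)).val) at h5
    rw [h5]
    have h6 := conj_pow (i := (u : ZMod (Nat.card E)).val) (a := g⁻¹) (b := (x : E))
    rw [inv_inv] at h6
    rw [h6]
    have h7 := Pool.Agent.Y286.NV.irr_class h.irr (x ^ (u : ZMod (Nat.card E)).val)
      (⟨g, h4⟩⁻¹ * x ^ (u : ZMod (Nat.card E)).val * ⟨g, h4⟩) (by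
        rw [isConj_iff]
        refine ⟨⟨g, h4⟩⁻¹, ?_⟩
        rw [inv_inv])
    exact h7
  · intro h1
    rw [pwQ_mk]
    congr 1
    refine Prod.ext rfl ?_
    funext x
    change a.2 (x ^ (u : ZMod (Nat.card E)).val) = a.2 x
    by_cases hx : x ∈ NG G a.1
    · exact h1 ⟨x, hx⟩
    · rw [h.supp x hx]
      refine h.supp _ fun h2 => hx ?_
      have h3 := pow_unit u x
      rw [← h3]
      exact Subgroup.pow_mem _ h2 _

/-- the characters fixed by the power maps with exponents in `S` -/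
def FixS (S : Set ℕ) {J : Type} [Group J] (χ : J → ℂ) : Prop := ∀ v ∈ S, ∀ x : J, χ (x ^ v) = χ x

theorem iso_fix (p d : ℕ) (S : Set ℕ) : Iso (fun _ _ χ => HasDef p d χ ∧ FixS S χ) := by
  rintro J J' _ _ e χ ⟨h1, h2⟩
  refine ⟨iso_def p d J J' e χ h1, fun v hv x => ?_⟩
  change χ (e (x ^ v)) = χ (e x)
  rw [map_pow]
  exact h2 v hv (e x)

/-- the subgroup generated by the exponents -/
def gen (E : Type) [Group E] (S : Set ℕ) : Subgroup (ZMod (Nat.card E))ˣ :=
  Subgroup.closure {u | ∃ v ∈ S, ((u : ZMod (Nat.card E))) = (v : ZMod (Nat.card E))}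

theorem pow_val {v : ℕ} {u : (ZMod (Nat.card E))ˣ}
    (h : ((u : ZMod (Nat.card E))) = (v : ZMod (Nat.card E))) (x : E) :
    x ^ (u : ZMod (Nat.card E)).val = x ^ v := by
  rw [h, ZMod.val_natCast, pow_mod_natCard]

theorem gen_mod {p : ℕ} {S : Set ℕ} (hS : ∀ v ∈ S, v ≡ 1 [MOD pp p (Nat.card E)])
    {u : (ZMod (Nat.card E))ˣ} (hu : u ∈ gen E S) :
    (u : ZMod (Nat.card E)).val ≡ 1 [MOD pp p (Nat.card E)] := by
  have hd : pp p (Nat.card E) ∣ Nat.card E := Nat.ordCompl_dvd _ _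
  let K : Subgroup (ZMod (Nat.card E))ˣ := (ZMod.unitsMap hd).ker
  have hK : ∀ u : (ZMod (Nat.card E))ˣ, u ∈ K ↔
      (u : ZMod (Nat.card E)).val ≡ 1 [MOD pp p (Nat.card E)] := by
    intro u
    rw [← ZMod.natCast_eq_natCast_iff, Nat.cast_one, MonoidHom.mem_ker, Units.ext_iff,
      ZMod.unitsMap_val, Units.val_one]
    have : NeZero (Nat.card E) := ⟨Nat.card_pos.ne'⟩
    rw [ZMod.cast_eq_val]
  have h1 : gen E S ≤ K := by
    unfold gen
    rw [Subgroup.closure_le]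
    rintro w ⟨v, hv, hw⟩
    refine (hK w).2 ?_
    rw [hw, ZMod.val_natCast]
    exact ((Nat.mod_modEq v _).of_dvd hd).trans (hS v hv)
  exact (hK u).1 (h1 hu)

theorem gen_q {q : ℕ} [Fact q.Prime] {S : Set ℕ}
    (hS : ∀ v ∈ S, ∃ k : ℕ, v ^ q ^ k ≡ 1 [MOD Nat.card E])
    {u : (ZMod (Nat.card E))ˣ} (hu : u ∈ gen E S) : ∃ k : ℕ, u ^ q ^ k = 1 := by
  unfold gen at hu
  induction hu using Subgroup.closure_induction with
  | mem w hw =>
    obtain ⟨v, hv, hw⟩ := hw
    obtain ⟨k, hk⟩ := hS v hv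
    refine ⟨k, ?_⟩
    rw [Units.ext_iff, Units.val_pow_eq_pow_val, hw, Units.val_one]
    have := (ZMod.natCast_eq_natCast_iff _ _ _).2 hk
    push_cast at this
    exact this
  | one => exact ⟨0, one_pow _⟩
  | mul a b _ _ ha hb =>
    obtain ⟨k, hk⟩ := ha
    obtain ⟨l, hl⟩ := hb
    refine ⟨k + l, ?_⟩
    rw [mul_pow, pow_add, pow_mul, hk, one_pow, mul_comm (q ^ k), pow_mul, hl, one_pow, one_mul]
  | inv a _ ha =>
    obtain ⟨k, hk⟩ := ha
    exact ⟨k, by rw [inv_pow, hk, inv_one]⟩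

/-- fixed classes -/
theorem fix_gen {p : ℕ} {d : ℕ}
    {red : integralClosure ℤ ℂ →+* F} {G : Subgroup E} [hG : G.Normal] {B : (G → F) → F} {a : Pr E}
    (h : Pd (fun _ _ χ => HasDef p d χ) p red G B a) {S : Set ℕ}
    (hS : ∀ v ∈ S, v.Coprime (Nat.card E)) :
    (∀ u ∈ gen E S, pwQ G u (Quotient.mk _ a) = Quotient.mk _ a) ↔
      FixS S (fun x : NG G a.1 => a.2 x) := by
  constructor
  · intro h1 v hv x
    have h2 := (pw_fix h (ZMod.unitOfCoprime v (hS v hv))).1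
      (h1 _ (Subgroup.subset_closure ⟨v, hv, rfl⟩)) x
    rw [pow_val (v := v) rfl] at h2
    exact h2
  · intro h1 u hu
    unfold gen at hu
    induction hu using Subgroup.closure_induction with
    | mem w hw =>
      obtain ⟨v, hv, hw⟩ := hw
      refine (pw_fix h w).2 fun x => ?_
      rw [pow_val hw]
      exact h1 v hv x
    | one => exact pwQ_one G _
    | mul a b _ _ ha hb => rw [pwQ_mul, hb, ha]
    | inv a _ ha =>
      have := congrArg (pwQ G a⁻¹) ha
      rw [← pwQ_mul, inv_mul_cancel, pwQ_one] at this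
      exact this.symm

end gal

end Pool.Agent.D0H4.BR
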