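import Pool.Agent.D0H4.BR.Cnt
import Pool.Agent.D0H4.BR.Fx

/-!
# The alternating sums are the marks of two finite sets with an action of `U`
-/

set_option autoImplicit false
set_option linter.unusedSectionVars false

open scoped Classical BigOperators

noncomputable section

namespace Pool.Agent.D0H4.BR

open Pool.Agent.Y63.NV
open Pool.Agent.Y63.KR
open Pool.Agent.Y63.AWC (IsIrreducibleCharacter irr_comp)
open Pool.Agent.R674.Tw (Fixes GCh NG NE NEbar ng_le ng_conj IndB invSum gchSetoid)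
open Pool.Agent.N20.DI

section

variable {F : Type} [Field F] {E : Type} [Group E]

/-- the classes with the sign `s` -/
abbrev XS (Q : ∀ (J : Type) [Group J], (J → ℂ) → Prop) (p : ℕ) (red : integralClosure ℤ ℂ →+* F)
    (G : Subgroup E) (B : (G → F) → F) (s : ℤ) : Type :=
  {x : Quotient (prS G) // PdQ Q p red G B x ∧ sg x = s}

theorem sg_pm {G : Subgroup E} (x : Quotient (prS G)) : sg x = 1 ∨ sg x = -1 :=
  neg_one_pow_eq_or ℤ _

variable [Finite E]

/-- the action of `U` on the classes with the sign `s` -/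
@[reducible] def actU {Q : ∀ (J : Type) [Group J], (J → ℂ) → Prop} (hQ : Iso Q) (p : ℕ)
    (red : integralClosure ℤ ℂ →+* F) (G : Subgroup E) [G.Normal] (B : (G → F) → F)
    (U : Subgroup (E ⧸ G)) (hB : InvBl G (U.comap (QuotientGroup.mk' G)) B) (s : ℤ) :
    MulAction U (XS Q p red G B s) where
  smul u x := ⟨acQ G (Quotient.out u.1) x.1, x.2.1.conj hQ (hB _ (by
    change QuotientGroup.mk' G (Quotient.out u.1) ∈ U
    have h1 : QuotientGroup.mk' G (Quotient.out u.1) = u.1 := Quotient.out_eq _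
    rw [h1]
    exact u.2)), (sg_ac _ _).trans x.2.2⟩
  one_smul x := Subtype.ext (by
    change acQ G (Quotient.out (1 : E ⧸ G)) x.1 = x.1
    have h1 : ((Quotient.out (1 : E ⧸ G) : E) : E ⧸ G) = 1 := Quotient.out_eq _
    exact acQ_mem G ((QuotientGroup.eq_one_iff _).1 h1) x.1)
  mul_smul u v x := Subtype.ext (by
    change acQ G (Quotient.out (u.1 * v.1)) x.1 =
      acQ G (Quotient.out u.1) (acQ G (Quotient.out v.1) x.1)
    rw [← acQ_mul]
    apply acQ_congr
    have h1 : ((Quotient.out u.1 : E) : E ⧸ G) = u.1 := Quotient.out_eq _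
    have h2 : ((Quotient.out v.1 : E) : E ⧸ G) = v.1 := Quotient.out_eq _
    have h3 : ((Quotient.out (u.1 * v.1) : E) : E ⧸ G) = u.1 * v.1 := Quotient.out_eq _
    rw [h3, QuotientGroup.mk_mul, h1, h2])

theorem card_fixed {Q : ∀ (J : Type) [Group J], (J → ℂ) → Prop} (hQ : Iso Q) (p : ℕ)
    (red : integralClosure ℤ ℂ →+* F) (G : Subgroup E) [G.Normal] (B : (G → F) → F)
    (U : Subgroup (E ⧸ G)) (hB : InvBl G (U.comap (QuotientGroup.mk' G)) B) (s : ℤ)
    {V : Subgroup (E ⧸ G)} (hV : V ≤ U) :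
    Nat.card {x : XV Q p red G B V // sg x.1 = s} =
      Nat.card {x : XS Q p red G B s // ∀ u : U, u.1 ∈ V →
        (actU hQ p red G B U hB s).smul u x = x} := by
  refine Nat.card_congr
    { toFun := fun x => ⟨⟨x.1.1, x.1.2.1, x.2⟩, fun u hu => Subtype.ext ?_⟩
      invFun := fun x => ⟨⟨x.1.1, x.1.2.1, fun e he => ?_⟩, x.1.2.2⟩
      left_inv := fun x => rfl
      right_inv := fun x => rfl }
  · have h1 : ((Quotient.out u.1 : E) : E ⧸ G) = u.1 := Quotient.out_eq _
    exact x.1.2.2 _ (by rw [h1]; exact hu)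
  · have h1 := congrArg Subtype.val (x.2 ⟨e, hV he⟩ he)
    have h2 : ((Quotient.out (e : E ⧸ G) : E) : E ⧸ G) = (e : E ⧸ G) := Quotient.out_eq _
    rw [← acQ_congr G h2 x.1.1]
    exact h1

/-- the alternating sums are marks -/
theorem marks {Q : ∀ (J : Type) [Group J], (J → ℂ) → Prop} (hQ : Iso Q) (p : ℕ)
    (red : integralClosure ℤ ℂ →+* F) (G : Subgroup E) [G.Normal] (B : (G → F) → F)
    (U : Subgroup (E ⧸ G)) (hB : InvBl G (U.comap (QuotientGroup.mk' G)) B) :
    ∃ (X₀ X₁ : Type) (_ : Finite X₀) (_ : Finite X₁) (_ : MulAction U X₀) (_ : MulAction U X₁),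
      ∀ V ≤ U, invSum p G (fun σ => (Nat.card (T Q red G B V σ) : ℤ)) =
        (Nat.card {x : X₀ // ∀ u : U, u.1 ∈ V → u • x = x} : ℤ) -
          Nat.card {x : X₁ // ∀ u : U, u.1 ∈ V → u • x = x} := by
  have hf : ∀ s : ℤ, Finite (XS Q p red G B s) := by
    intro s
    have h1 := xv_fin hQ p red G B (⊥ : Subgroup (E ⧸ G))
    refine Finite.of_injective (β := XV Q p red G B (⊥ : Subgroup (E ⧸ G))) (fun x => ⟨x.1, x.2.1,
      fun e he => acQ_mem G ((QuotientGroup.eq_one_iff e).1 (Subgroup.mem_bot.1 he)) x.1⟩)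
      fun x y h => Subtype.ext (congrArg (fun t => t.1) h)
  refine ⟨XS Q p red G B 1, XS Q p red G B (-1), hf 1, hf (-1), actU hQ p red G B U hB 1,
    actU hQ p red G B U hB (-1), fun V hV => ?_⟩
  have h1 := xv_fin hQ p red G B V
  rw [sum_eq hQ, sum_sign (fun x : XV Q p red G B V => sg x.1) fun x => sg_pm x.1,
    card_fixed hQ p red G B U hB 1 hV, card_fixed hQ p red G B U hB (-1) hV]
  rfl

/-- the congruence -/
theorem congr_q {Q : ∀ (J : Type) [Group J], (J → ℂ) → Prop} (hQ : Iso Q) (p : ℕ)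
    (red : integralClosure ℤ ℂ →+* F) (G : Subgroup E) [G.Normal] (B : (G → F) → F)
    (U V : Subgroup (E ⧸ G)) (hB : InvBl G (U.comap (QuotientGroup.mk' G)) B) (hVU : V ≤ U)
    (hn : ∀ u ∈ U, ∀ v ∈ V, u * v * u⁻¹ ∈ V) {q : ℕ} (hq : q.Prime)
    (hk : ∀ u ∈ U, ∃ k : ℕ, u ^ q ^ k ∈ V) :
    (q : ℤ) ∣ invSum p G (fun σ => (Nat.card (T Q red G B V σ) : ℤ)) -
      invSum p G (fun σ => (Nat.card (T Q red G B U σ) : ℤ)) := by
  have : Fact q.Prime := ⟨hq⟩
  obtain ⟨X₀, X₁, _, _, _, _, h⟩ := marks hQ p red G B U hB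
  rw [h V hVU, h U le_rfl]
  let W : Subgroup U := V.subgroupOf U
  have hW : W.Normal := ⟨fun v hv u => hn u u.2 v hv⟩
  have hk' : ∀ u : U, ∃ k : ℕ, u ^ q ^ k ∈ W := by
    intro u
    obtain ⟨k, hk⟩ := hk u u.2
    exact ⟨k, hk⟩
  have key : ∀ (X : Type) [Finite X] [MulAction U X],
      (q : ℤ) ∣ (Nat.card {x : X // ∀ u : U, u.1 ∈ V → u • x = x} : ℤ) -
        Nat.card {x : X // ∀ u : U, u.1 ∈ U → u • x = x} := by
    intro X _ _
    have h1 := (fix_modEq (X := X) W hW hk').symm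
    have h2 : Nat.card {x : X // ∀ u : U, u.1 ∈ U → u • x = x} =
        Nat.card {x : X // ∀ u : U, u • x = x} :=
      Nat.card_congr (Equiv.subtypeEquivRight fun x => ⟨fun h u => h u u.2, fun h u _ => h u⟩)
    rw [h2]
    exact (Nat.modEq_iff_dvd.1 h1)
  have e := (dvd_sub (key X₀) (key X₁))
  have e1 : ∀ a b c d : ℤ, a - b - (c - d) = a - c - (b - d) := by
    intros
    ring
  rwa [e1]

end

end Pool.Agent.D0H4.BR
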