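import Pool.Agent.Q90.WR.Bcl
import Pool.Agent.Y930.NV.Cen
import Pool.Agent.N20.DI.Stm3

/-!
# Two descriptions of blocks: reduction maps and valuation rings
-/

set_option autoImplicit false
set_option linter.unusedSectionVars false

open scoped Classical BigOperators

noncomputable section

namespace Pool.Agent.D0H4.BR

open Pool.Agent.Y63.NV (IsClassFun centralValue redC)
open Pool.Agent.Y63.KR (alternatingSum)
open Pool.Agent.Y63.AWC (IsIrreducibleCharacter)
open Pool.Agent.N20.DI (HasDef Dg)
open Pool.Agent.Q90.WR (IndS blkDef anum sum_eq_L')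
open Pool.Agent.Q259.BW (L)
open Pool.Agent.H254R3.IN (IsIrr omega)
open Pool.Agent.Y930.NV (Cf ind R om om_int om_ind ind_cast R_expand centralValue_eq redC_of irr_Cf
  Cf_expand Cf_out mk_out)

variable {F : Type} [Field F] (red : integralClosure ℤ ℂ →+* F)

/-- a valuation ring for the reduction map -/
theorem exists_O : ∃ O : ValuationSubring ℂ, ∀ a : integralClosure ℤ ℂ,
    (a : ℂ) ∈ O.nonunits ↔ red a = 0 := by
  let A : Subring ℂ := (integralClosure ℤ ℂ).toSubring
  let i : A →+* integralClosure ℤ ℂ := A.subtype.codRestrict (integralClosure ℤ ℂ) fun x => x.2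
  let P : Ideal A := RingHom.ker (red.comp i)
  have hP : P.IsPrime := RingHom.ker_isPrime _
  obtain ⟨O, hO⟩ := LocalSubring.exists_le_valuationSubring (LocalSubring.ofPrime A P)
  obtain ⟨h1, h2⟩ := LocalSubring.le_def.1 hO
  refine ⟨O, fun a => ?_⟩
  let b : A := ⟨a, a.2⟩
  have hib : i b = a := rfl
  have hbP : b ∈ P ↔ red a = 0 := by
    change (red.comp i) b = 0 ↔ _
    rw [RingHom.comp_apply, hib]
  let c : (LocalSubring.ofPrime A P).toSubring := algebraMap A _ b
  have hc : IsUnit c ↔ b ∉ P := by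
    rw [IsLocalization.AtPrime.isUnit_to_map_iff (LocalSubring.ofPrime A P).toSubring P b]
    rfl
  let e : O := ⟨a, h1 c.2⟩
  have he : IsUnit e ↔ IsUnit c := by
    constructor
    · intro h
      exact h2.map_nonunit c h
    · intro h
      exact h.map (Subring.inclusion h1)
  have hn : (a : ℂ) ∈ O.nonunits ↔ ¬ IsUnit e := by
    rw [← mem_nonunits_iff, ← IsLocalRing.mem_maximalIdeal]
    exact ValuationSubring.coe_mem_nonunits_iff (a := e)
  rw [hn, he, hc, not_not, hbP]

variable {red}
variable {O : ValuationSubring ℂ} (hO : ∀ a : integralClosure ℤ ℂ, (a : ℂ) ∈ O.nonunits ↔ red a = 0)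

include hO

theorem sub_iff {x y : ℂ} (hx : IsIntegral ℤ x) (hy : IsIntegral ℤ y) :
    x - y ∈ O.nonunits ↔ redC red x = redC red y := by
  rw [redC_of red hx, redC_of red hy, ← sub_eq_zero, ← map_sub]
  exact hO (⟨x, hx⟩ - ⟨y, hy⟩)

end Pool.Agent.D0H4.BR
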