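import Pool.Agent.D0H4.BR.Pa
import Pool.Agent.Q90.WR.Daf
import Pool.Agent.N622.DIORD
import Pool.Agent.N85.TG.Exc0
import Pool.Agent.Y63.AWC.Deg

/-!
# The characters which induce to a block: two descriptions
-/

set_option autoImplicit false
set_option linter.unusedSectionVars false

open scoped Classical BigOperators

noncomputable section

attribute [-instance] Pool.Agent.H254R3.IN.fintypeCC Pool.Agent.H254R3.IN.decConj
set_option maxHeartbeats 400000

namespace Pool.Agent.D0H4.BR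

open Pool.Agent.Y63.NV (IsClassFun centralValue redC numDzBlock IsWt)
open Pool.Agent.Y63.KR (alternatingSum)
open Pool.Agent.Y63.AWC (IsIrreducibleCharacter)
open Pool.Agent.N20.DI (HasDef Dg)
open Pool.Agent.Q90.WR (IndS blkDef anum sum_eq_L' GoodB)
open Pool.Agent.Q259.BW (L)
open Pool.Agent.H254R3.IN (IsIrr omega)
open Pool.Agent.Y930.NV (Cf ind R om om_int om_ind ind_cast R_expand centralValue_eq redC_of irr_Cf
  Cf_expand Cf_out mk_out Cf_ind)
open Pool.Agent.N622.DIORD (gc)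

variable {F : Type} [Field F] {red : integralClosure ℤ ℂ →+* F}

theorem ind_ring {G : Type} [Group G] [Fintype G] (D : ConjClasses G) (x : G) :
    ((ind ℤ D x : ℤ) : F) = ind F D x := by
  unfold ind
  split_ifs <;> simp

section

variable {G K : Type} [Group G] [Fintype G] [Group K] [Fintype K] (π : K →* G)

theorem cf_pi (D : ConjClasses G) : Cf (fun x : K => ind ℤ D (π x)) := fun g x => by
  change ind ℤ D (π (g * x * g⁻¹)) = ind ℤ D (π x)
  rw [map_mul, map_mul, map_inv]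
  exact Cf_ind ℤ D (π g) (π x)

theorem cv_expand {θ : K → ℂ} (h : IsIrreducibleCharacter θ) {f : G → F} (hf : IsClassFun f) :
    centralValue red θ (fun x : K => f (π x)) =
      ∑ D : ConjClasses G, f D.out * R red θ (fun x : K => ind ℤ D (π x)) := by
  have hf' : Cf f := hf
  rw [centralValue_eq red h]
  have h2 : ∀ D : ConjClasses G, f D.out * R red θ (fun x : K => ind ℤ D (π x)) =
      ∑ C : ConjClasses K, f D.out * (((ind ℤ D (π C.out) : ℤ) : F) *
        R red θ (ind ℤ C)) := fun D => by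
    rw [R_expand red h (cf_pi π D), Finset.mul_sum]
  simp_rw [h2]
  rw [Finset.sum_comm]
  refine Finset.sum_congr rfl fun C _ => ?_
  simp_rw [← mul_assoc]
  rw [← Finset.sum_mul]
  congr 1
  simp_rw [ind_ring]
  exact Cf_expand hf' _

theorem cv_ind {θ : K → ℂ} (h : IsIrreducibleCharacter θ) (D : ConjClasses G) :
    centralValue red θ (fun x : K => ind F D (π x)) =
      R red θ (fun x : K => ind ℤ D (π x)) := by
  rw [R_expand red h (cf_pi π D), centralValue_eq red h]
  refine Finset.sum_congr rfl fun C _ => ?_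
  rw [ind_ring]

theorem cv_ind' {χ : G → ℂ} (h : IsIrreducibleCharacter χ) (D : ConjClasses G) :
    centralValue red χ (ind F D) = R red χ (ind ℤ D) := by
  rw [R_expand red h (Cf_ind ℤ D), centralValue_eq red h]
  refine Finset.sum_congr rfl fun C _ => ?_
  rw [ind_ring]

theorem omega_om {χ : G → ℂ} (h : IsIrreducibleCharacter χ) (x : G) :
    omega χ x = om χ (fun g => ((ind ℤ (ConjClasses.mk x) g : ℤ) : ℂ)) := by
  rw [ind_cast, om_ind χ (irr_Cf h)]
  unfold omega
  rw [Cf_out (irr_Cf h) rfl]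
  have h1 : Nat.card {y : G // IsConj x y} = Nat.card (ConjClasses.mk x).carrier := by
    refine Nat.card_congr (Equiv.subtypeEquivRight fun y => ?_)
    rw [ConjClasses.mem_carrier_iff_mk_eq, ConjClasses.mk_eq_mk_iff_isConj]
    exact isConj_comm
  rw [h1]

theorem L_om (θ : K → ℂ) (x : G) :
    L (π : K → G) θ x = om θ (fun g : K => ((ind ℤ (ConjClasses.mk x) (π g) : ℤ) : ℂ)) := by
  unfold L om
  congr 1
  refine Finset.sum_congr rfl fun c _ => ?_
  unfold ind
  beta_reduce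
  have h1 : IsConj x (π c) ↔ ConjClasses.mk (π c) = ConjClasses.mk x := by
    rw [ConjClasses.mk_eq_mk_iff_isConj]
    exact isConj_comm
  by_cases h2 : IsConj x (π c)
  · rw [if_pos h2, if_pos (h1.1 h2)]
    push_cast
    rw [one_mul]
  · rw [if_neg h2, if_neg (fun h => h2 (h1.2 h))]
    push_cast
    rw [zero_mul]

theorem om_int_J {θ : K → ℂ}
    (h : IsIrreducibleCharacter θ) (x : G) : IsIntegral ℤ (L (π : K → G) θ x) := by
  rw [L_om]
  exact om_int h (cf_pi π (ConjClasses.mk x))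

theorem om_int_G {χ : G → ℂ}
    (h : IsIrreducibleCharacter χ) (x : G) : IsIntegral ℤ (omega χ x) := by
  rw [omega_om h]
  exact om_int h (Cf_ind ℤ (ConjClasses.mk x))

variable {O : ValuationSubring ℂ} (hO : ∀ a : integralClosure ℤ ℂ, (a : ℂ) ∈ O.nonunits ↔ red a = 0)

include hO

theorem blk_red {C : Set (G → ℂ)}
    (hC : Pool.Agent.H254R3.IN.IsBlock O C) {χ₀ : G → ℂ} (h0 : χ₀ ∈ C) {χ : G → ℂ} (hχ : χ ∈ C)
    (x : G) : redC red (omega χ x) = redC red (omega χ₀ x) := by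
  have hirr : ∀ χ ∈ C, IsIrreducibleCharacter χ := fun χ hχ => hC.irr χ hχ
  obtain ⟨χ₁, h1, rfl⟩ := hC
  have e1 := (sub_iff hO (om_int_G (hirr χ hχ) x) (om_int_G h1 x)).1 (hχ.2 x)
  have e2 := (sub_iff hO (om_int_G (hirr χ₀ h0) x) (om_int_G h1 x)).1 (h0.2 x)
  rw [e1, e2]

theorem mem_ind {C : Set (G → ℂ)}
    (hC : Pool.Agent.H254R3.IN.IsBlock O C) {χ₀ : G → ℂ} (h0 : χ₀ ∈ C) (θ : K → ℂ) :
    θ ∈ IndS O C (π : K → G) ↔ IsIrreducibleCharacter θ ∧
      ∀ f : G → F, IsClassFun f →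
        centralValue red θ (fun x : K => f (π x)) = centralValue red χ₀ f := by
  have hirr : ∀ χ ∈ C, IsIrreducibleCharacter χ := fun χ hχ => hC.irr χ hχ
  constructor
  · rintro ⟨h1, h2⟩
    have h1' : IsIrreducibleCharacter θ := h1
    refine ⟨h1', fun f hf => ?_⟩
    rw [cv_expand π h1' hf, centralValue_eq red (hirr χ₀ h0) f]
    refine Finset.sum_congr rfl fun D _ => ?_
    congr 1
    have h3 := h2 χ₀ h0 D.out
    rw [sum_eq_L'] at h3
    have h4 := (sub_iff hO (om_int_G (hirr χ₀ h0) D.out) (om_int_J π h1' D.out)).1 h3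
    rw [L_om, omega_om (hirr χ₀ h0), mk_out] at h4
    exact h4.symm
  · rintro ⟨h1, h2⟩
    refine ⟨h1, fun χ hχ x => ?_⟩
    rw [sum_eq_L']
    refine (sub_iff hO (om_int_G (hirr χ hχ) x) (om_int_J π h1 x)).2 ?_
    rw [blk_red hO hC h0 hχ x, L_om, omega_om (hirr χ₀ h0)]
    have h3 := h2 (ind F (ConjClasses.mk x)) (Cf_ind F (ConjClasses.mk x))
    rw [cv_ind π h1, cv_ind' (hirr χ₀ h0)] at h3
    exact h3.symm

/-- the counts agree -/
theorem anum_gc (p : ℕ) {C : Set (G → ℂ)}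
    (hC : Pool.Agent.H254R3.IN.IsBlock O C) {χ₀ : G → ℂ} (h0 : χ₀ ∈ C) (d : ℕ) (J : Subgroup G) :
    (anum p d (IndS O C (Subtype.val : J → G)) : ℤ) = gc red p (centralValue red χ₀) d J := by
  unfold anum gc
  refine congrArg _ (Nat.card_congr (Equiv.subtypeEquivRight fun θ => ?_))
  letI : Fintype J := Fintype.ofFinite J
  have h := mem_ind J.subtype hO hC h0 θ
  constructor
  · rintro ⟨h1, h3⟩
    obtain ⟨h1, h2⟩ := h.1 h1
    exact ⟨h1, h3, h2⟩
  · rintro ⟨h1, h3, h2⟩
    exact ⟨h.2 ⟨h1, h2⟩, h3⟩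

theorem blkDef_gc (p : ℕ) {C : Set (G → ℂ)}
    (hC : Pool.Agent.H254R3.IN.IsBlock O C) {χ₀ : G → ℂ} (h0 : χ₀ ∈ C) (d : ℕ) :
    blkDef p O d C = alternatingSum p G (gc red p (centralValue red χ₀) d) := by
  unfold blkDef
  congr 1
  funext J
  exact anum_gc hO p hC h0 d J

end

end Pool.Agent.D0H4.BR
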