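import Pool.Agent.D0H4.BR.Pb
import Pool.Agent.D0H4.BR.GFin

/-!
# Good blocks in the two descriptions
-/

set_option autoImplicit false
set_option linter.unusedSectionVars false

open scoped Classical BigOperators

noncomputable section

attribute [-instance] Pool.Agent.H254R3.IN.fintypeCC Pool.Agent.H254R3.IN.decConj
set_option maxHeartbeats 400000

namespace Pool.Agent.D0H4.BR

open Pool.Agent.Y63.NV (IsClassFun centralValue redC numDzBlock IsWt)
open Pool.Agent.Y63.KR (alternatingSum)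
open Pool.Agent.Y63.AWC (IsIrreducibleCharacter)
open Pool.Agent.N20.DI (HasDef Dg)
open Pool.Agent.Q90.WR (IndS blkDef anum sum_eq_L' GoodB)
open Pool.Agent.H254R3.IN (IsIrr omega)
open Pool.Agent.Y930.NV (Cf ind R om centralValue_eq Cf_ind mk_out)
open Pool.Agent.N622.DIORD (gc)

variable {F : Type} [Field F] {red : integralClosure ℤ ℂ →+* F}

section

variable {O : ValuationSubring ℂ} (hO : ∀ a : integralClosure ℤ ℂ, (a : ℂ) ∈ O.nonunits ↔ red a = 0)

include hO

theorem nat_nonunit {p : ℕ} [CharP F p] (m : ℕ) : (m : ℂ) ∈ O.nonunits ↔ p ∣ m := by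
  have h3 := hO (m : integralClosure ℤ ℂ)
  have h4 : ((m : integralClosure ℤ ℂ) : ℂ) = (m : ℂ) := by
    push_cast
    rfl
  rw [h4] at h3
  rw [h3, map_natCast, CharP.cast_eq_zero_iff F p]

theorem pos_iff {p : ℕ} [hp : Fact p.Prime] [CharP F p] {G : Type} [Group G] [Fintype G]
    {ψ : G → ℂ} (h : IsIrreducibleCharacter ψ) :
    (Nat.card G : ℂ) / ψ 1 ∈ O.nonunits ↔ ¬ IsWt p (⊥ : Subgroup G) ψ := by
  obtain ⟨n, hn⟩ : ∃ n : ℕ, ψ 1 = (n : ℂ) := by
    obtain ⟨V, _, _, _, ρ, _, rfl⟩ := h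
    exact ⟨_, ρ.char_one⟩
  have hd : n ∣ Nat.card G := Pool.Agent.Y63.AWC.deg_dvd h hn
  have hG : Nat.card G ≠ 0 := Nat.card_pos.ne'
  have hn0 : n ≠ 0 := fun h0 => hG (Nat.eq_zero_of_zero_dvd (h0 ▸ hd))
  obtain ⟨m, hm⟩ := hd
  have hm0 : m ≠ 0 := by
    rintro rfl
    exact hG (by rw [hm, mul_zero])
  have h1 : (Nat.card G : ℂ) / ψ 1 = (m : ℂ) := by
    have hn1 : (n : ℂ) ≠ 0 := by exact_mod_cast hn0
    rw [hn, hm]
    push_cast
    rw [mul_div_cancel_left₀ _ hn1]
  have h5 : p ∣ m ↔ n.factorization p ≠ (Nat.card G).factorization p := by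
    rw [hm, Nat.factorization_mul hn0 hm0, Finsupp.add_apply]
    have h6 := hp.out.dvd_iff_one_le_factorization hm0
    rw [h6]
    omega
  rw [h1, nat_nonunit hO (p := p), h5]
  constructor
  · rintro h6 ⟨_, _, n', hn', h7⟩
    have h8 : n' = n := by exact_mod_cast hn'.symm.trans hn
    subst h8
    rw [Subgroup.card_bot, Nat.factorization_one] at h7
    exact h6 (by simpa using h7)
  · intro h6 h7
    exact h6 ⟨h, fun q hq x => by rw [Subgroup.mem_bot.1 hq, one_mul], n, hn, by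
      rw [Subgroup.card_bot, Nat.factorization_one]
      simpa using h7⟩

/-- congruent characters -/
theorem cong_iff {G : Type} [Group G] [Fintype G] {χ ψ : G → ℂ} (hχ : IsIrreducibleCharacter χ)
    (hψ : IsIrreducibleCharacter ψ) :
    (∀ x, omega χ x - omega ψ x ∈ O.nonunits) ↔
      ∀ f : G → F, IsClassFun f → centralValue red χ f = centralValue red ψ f := by
  constructor
  · intro h f _
    rw [centralValue_eq red hχ f, centralValue_eq red hψ f]
    refine Finset.sum_congr rfl fun D _ => ?_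
    congr 1
    have h3 := (sub_iff hO (om_int_G hχ D.out) (om_int_G hψ D.out)).1 (h D.out)
    rw [omega_om hχ, omega_om hψ, mk_out] at h3
    exact h3
  · intro h x
    refine (sub_iff hO (om_int_G hχ x) (om_int_G hψ x)).2 ?_
    have h3 := h (ind F (ConjClasses.mk x)) (Cf_ind F (ConjClasses.mk x))
    rw [cv_ind' hχ, cv_ind' hψ] at h3
    rw [omega_om hχ, omega_om hψ]
    exact h3

theorem mem_blk {G : Type} [Group G] [Fintype G] {C : Set (G → ℂ)}
    (hC : Pool.Agent.H254R3.IN.IsBlock O C) {χ₀ : G → ℂ} (h0 : χ₀ ∈ C) {χ : G → ℂ}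
    (h : IsIrreducibleCharacter χ)
    (hf : ∀ f : G → F, IsClassFun f → centralValue red χ f = centralValue red χ₀ f) : χ ∈ C := by
  have hirr : ∀ χ ∈ C, IsIrreducibleCharacter χ := fun χ hχ => hC.irr χ hχ
  have h00 := hirr χ₀ h0
  obtain ⟨χ₁, h1, rfl⟩ := hC
  refine ⟨h, ?_⟩
  have h1' : IsIrreducibleCharacter χ₁ := h1
  have e1 := (cong_iff hO h00 h1').1 h0.2
  refine (cong_iff hO h h1').2 fun f hf' => ?_
  rw [hf f hf', e1 f hf']

theorem dz_of_good {p : ℕ} [hp : Fact p.Prime] [CharP F p] {G : Type} [Group G] [Fintype G]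
    {C : Set (G → ℂ)} (hC : GoodB O C) {χ₀ : G → ℂ} (h0 : χ₀ ∈ C) :
    numDzBlock p red (centralValue red χ₀) = 0 := by
  unfold numDzBlock
  have : IsEmpty {χ : G → ℂ // IsWt p (⊥ : Subgroup G) χ ∧
      ∀ f : G → F, IsClassFun f → centralValue red χ f = centralValue red χ₀ f} :=
    ⟨fun χ => (pos_iff hO χ.2.1.irr).1
      (hC.pos _ (mem_blk hO hC.block h0 χ.2.1.irr χ.2.2)) χ.2.1⟩
  exact Nat.card_of_isEmpty

theorem good_of_dz {p : ℕ} [hp : Fact p.Prime] [CharP F p] {G : Type} [Group G] [Fintype G]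
    {B : (G → F) → F} (hB : numDzBlock p red B = 0) {χ₀ : G → ℂ} (h0 : IsIrreducibleCharacter χ₀)
    (hf : ∀ f : G → F, IsClassFun f → centralValue red χ₀ f = B f) :
    GoodB O {χ : G → ℂ | IsIrr χ ∧ ∀ x : G, omega χ x - omega χ₀ x ∈ O.nonunits} := by
  refine ⟨⟨χ₀, h0, rfl⟩, ?_⟩
  rintro ψ ⟨h1, h2⟩
  have h1' : IsIrreducibleCharacter ψ := h1
  refine (pos_iff hO (p := p) h1').2 fun h3 => ?_
  have hfin : Finite {χ : G → ℂ // IsWt p (⊥ : Subgroup G) χ ∧
      ∀ f : G → F, IsClassFun f → centralValue red χ f = B f} := by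
    have h4 : Finite {χ : G → ℂ // IsIrreducibleCharacter χ} := Pool.Agent.Y171.NV.irr_fin G
    exact Finite.of_injective
      (fun χ => (⟨χ.1, χ.2.1.irr⟩ : {χ : G → ℂ // IsIrreducibleCharacter χ}))
      fun a b h => Subtype.ext (by
        have h' := congrArg Subtype.val h
        exact h')
  unfold numDzBlock at hB
  rw [Nat.card_eq_zero] at hB
  rcases hB with h5 | h5
  · refine h5.false ⟨ψ, h3, fun f hf' => ?_⟩
    rw [(cong_iff hO h1' h0).1 h2 f hf', hf f hf']
  · exact h5.not_finite hfin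

end

end Pool.Agent.D0H4.BR
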