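import Pool.Agent.D0H4.BR.Pc

/-!
# Parity for blocks of groups without normal `p`-subgroups, `p` odd
-/

set_option autoImplicit false
set_option linter.unusedSectionVars false

open scoped Classical BigOperators

noncomputable section

attribute [-instance] Pool.Agent.H254R3.IN.fintypeCC Pool.Agent.H254R3.IN.decConj
set_option maxHeartbeats 400000

namespace Pool.Agent.D0H4.BR

open Pool.Agent.Y63.NV
open Pool.Agent.Y63.KR
open Pool.Agent.Y63.AWC (IsIrreducibleCharacter)
open Pool.Agent.R674.Tw (Fixes GCh NG NE NEbar ng_le IndB invSum)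
open Pool.Agent.N20.DI
open Pool.Agent.Q90.WR (IndS blkDef blkDefT blkDef_parity anum GoodB WrSN WrN bd_one Op_wr)
open Pool.Agent.Q259.BW (WrS)
open Pool.Agent.H254R3.IN (IsIrr omega)
open Pool.Agent.N622.DIORD (gc tb tb_block tb_dz kdU_top gc_conj)

variable {F : Type} [Field F]

section

variable {p : ℕ} [Fact p.Prime] (red : integralClosure ℤ ℂ →+* F)

theorem ord_eq {H : Type} [Group H] [Finite H] (B : (H → F) → F) (d : ℕ) :
    alternatingSum p H (gc red p B d) =
      invSum p (⊤ : Subgroup H) (fun σ => (kdU p red (⊤ : Subgroup H) (tb B) d ⊤ σ : ℤ)) := by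
  have h2 : (fun σ => (kdU p red (⊤ : Subgroup H) (tb B) d ⊤ σ : ℤ)) =
      fun σ : Set (Subgroup H) => gc red p B d (chainStabilizer σ) :=
    funext fun σ => kdU_top red B d σ
  rw [h2]
  have _i : Fintype (GCh p (⊤ : Subgroup H)) := Fintype.ofFinite _
  have h3 := Pool.Agent.R674.Tw.card_mul_inv (p := p) (⊤ : Subgroup H)
    (fun σ : Set (Subgroup H) => gc red p B d (chainStabilizer σ)) (by
      intro g _ σ
      rw [chainStabilizer_conj, gc_conj])
  have h4 := Pool.Agent.Q90.WR.card_mul_alternatingSum' (p := p) (G := H)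
    (gc red p B d) (fun g J => gc_conj red B d g J)
  have hpos : (Nat.card H : ℤ) ≠ 0 := by exact_mod_cast Nat.card_pos.ne'
  rw [Subgroup.card_top] at h3
  apply mul_left_cancel₀ hpos
  rw [h4, h3]
  refine (Fintype.sum_equiv
    ({ toFun := fun σ => ⟨σ.1, σ.2, fun P _ => le_top⟩
       invFun := fun σ => ⟨σ.1, σ.2.1⟩
       left_inv := fun σ => rfl
       right_inv := fun σ => rfl } : Pool.Agent.Q90.WR.Ch p H ≃ GCh p (⊤ : Subgroup H))
    _ _ fun σ => ?_)
  change (-1 : ℤ) ^ σ.1.ncard * ((Nat.card (chainStabilizer σ.1) : ℤ) *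
      gc red p B d (chainStabilizer σ.1)) =
    (-1 : ℤ) ^ σ.1.ncard * ((Nat.card (NG ⊤ σ.1) : ℤ) * gc red p B d (chainStabilizer σ.1))
  have h5 : NG (⊤ : Subgroup H) σ.1 = chainStabilizer σ.1 := top_inf_eq _
  rw [h5]

/-- for `G = E` all inertial groups are the same -/
theorem kdGe_top {H : Type} [Group H] [Finite H] (B : ((⊤ : Subgroup H) → F) → F) (d : ℕ)
    (U V : Subgroup (H ⧸ (⊤ : Subgroup H))) (σ : Set (Subgroup H)) :
    kdGe p red (⊤ : Subgroup H) B d U σ = kdU p red (⊤ : Subgroup H) B d V σ := by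
  have hq : Subsingleton (H ⧸ (⊤ : Subgroup H)) := QuotientGroup.subsingleton_quotient_top
  have hs : ∀ U V : Subgroup (H ⧸ (⊤ : Subgroup H)), U ≤ V := fun U V x _ => by
    rw [Subsingleton.elim x 1]
    exact Subgroup.one_mem _
  unfold kdGe kdU
  refine Nat.card_congr (Equiv.subtypeEquivRight fun χ => ?_)
  constructor
  · rintro ⟨h1, h2, -, h4⟩
    exact ⟨h1, h2, le_antisymm (hs _ _) (hs _ _), h4⟩
  · rintro ⟨h1, h2, -, h4⟩
    exact ⟨h1, h2, hs _ _, h4⟩

theorem ord_ge {H : Type} [Group H] [Finite H] (B : (H → F) → F) (d : ℕ)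
    (U : Subgroup (H ⧸ (⊤ : Subgroup H))) :
    alternatingSum p H (gc red p B d) =
      radSum p (⊤ : Subgroup H) (fun σ => (kdGe p red (⊤ : Subgroup H) (tb B) d U σ : ℤ)) := by
  have h1 : (fun σ => (kdGe p red (⊤ : Subgroup H) (tb B) d U σ : ℤ)) =
      fun σ => (kdU p red (⊤ : Subgroup H) (tb B) d ⊤ σ : ℤ) :=
    funext fun σ => by rw [kdGe_top red (tb B) d U ⊤ σ]
  rw [ord_eq red B d, ← rad_kdU red (⊤ : Subgroup H) (tb B) d ⊤, h1]

end

section

variable (p : ℕ) (red : integralClosure ℤ ℂ →+* F)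

/-- parity for one group -/
def ParG (H : Type) [Group H] : Prop :=
  (∀ P : Subgroup (⊤ : Subgroup H), P.Normal → IsPGroup p P → P = ⊥) →
  ∀ B : ((⊤ : Subgroup H) → F) → F, IsBlock B → numDzBlock p red B = 0 → ∀ d : ℕ,
    (2 : ℤ) ∣ radSum p (⊤ : Subgroup H) (fun σ => (Nat.card
      (T (fun _ _ χ => HasDef p d χ ∧ FixS (Exps p 2 (Nat.card H)) χ) red ⊤ B ⊥ σ) : ℤ))

end

section

variable {p : ℕ} [hp : Fact p.Prime] [CharP F p] (red : integralClosure ℤ ℂ →+* F)

theorem Op_top {H : Type} [Group H] (hP : ∀ P : Subgroup H, P.Normal → IsPGroup p P → P = ⊥) :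
    ∀ P : Subgroup (⊤ : Subgroup H), P.Normal → IsPGroup p P → P = ⊥ := by
  intro P hn hp
  have h1 : (P.map (Subgroup.topEquiv (G := H)).toMonoidHom).Normal :=
    Subgroup.Normal.map hn _ (Subgroup.topEquiv (G := H)).surjective
  have h2 := hP _ h1 (hp.map _)
  exact (Subgroup.map_eq_bot_iff_of_injective P (Subgroup.topEquiv (G := H)).injective).1 h2

/-- parity of the unsigned counts -/
theorem even_of {O : ValuationSubring ℂ}
    (hO : ∀ a : integralClosure ℤ ℂ, (a : ℂ) ∈ O.nonunits ↔ red a = 0)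
    {K : Type} [Group K] [Finite K] (hK : ParG p red K)
    (hP : ∀ P : Subgroup K, P.Normal → IsPGroup p P → P = ⊥) {C : Set (K → ℂ)}
    (hC : GoodB O C) (d : ℕ) : Even (blkDefT p O d C) := by
  have : Fintype K := Fintype.ofFinite K
  rw [blkDef_parity]
  obtain ⟨χ₀, h0⟩ := hC.block.nonempty
  have hirr : IsIrreducibleCharacter χ₀ := hC.block.irr χ₀ h0
  have hB := tb_block (Pool.Agent.Y930.NV.cvh F red K χ₀ hirr)
  have hz := tb_dz (p := p) red (dz_of_good (p := p) hO hC h0)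
  have h1 := hK (Op_top hP) _ hB hz d
  have h2 := sm_gal red (⊤ : Subgroup K) (tb (centralValue red χ₀)) (p := p) ⊥ Nat.prime_two d
  rw [blkDef_gc hO p hC.block h0 d, ord_ge red _ d ⊥]
  have h3 := (dvd_add h2 h1)
  push_cast at h3
  rw [sub_add_cancel] at h3
  exact h3

end

end Pool.Agent.D0H4.BR
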