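import Pool.Agent.D0H4.BR.Pd

/-!
# Parity decides, `p` odd
-/

set_option autoImplicit false
set_option linter.unusedSectionVars false

open scoped Classical BigOperators

noncomputable section

attribute [-instance] Pool.Agent.H254R3.IN.fintypeCC Pool.Agent.H254R3.IN.decConj
set_option maxHeartbeats 400000

namespace Pool.Agent.D0H4.BR

open Pool.Agent.Y63.NV
open Pool.Agent.Y63.KR
open Pool.Agent.Y63.AWC (IsIrreducibleCharacter)
open Pool.Agent.R674.Tw (Fixes GCh NG NE NEbar ng_le IndB invSum)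
open Pool.Agent.N20.DI
open Pool.Agent.Q90.WR (IndS blkDef blkDefT blkDef_parity anum GoodB WrSN WrN bd_one Op_wr)
open Pool.Agent.Q259.BW (WrS)
open Pool.Agent.H254R3.IN (IsIrr omega)
open Pool.Agent.N622.DIORD (gc tb tb_block tb_dz kdU_top gc_conj)

variable {F : Type} [Field F] {p : ℕ} [hp : Fact p.Prime] [CharP F p]
  (red : integralClosure ℤ ℂ →+* F)

theorem all_even {O : ValuationSubring ℂ}
    (hO : ∀ a : integralClosure ℤ ℂ, (a : ℂ) ∈ O.nonunits ↔ red a = 0)
    (hp2 : p ≠ 2) (hpO : (p : ℂ) ∈ O.nonunits) :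
    ∀ (j : ℕ) (H : Type) [Group H] [Finite H] (C : Set (H → ℂ)), GoodB O C →
      (∀ P : Subgroup H, P.Normal → IsPGroup p P → P = ⊥) → ParG p red (WrN j H) →
      ∀ d : ℕ, Even (blkDefT p O d (WrSN j C)) := by
  intro j
  induction j with
  | zero => exact fun H _ _ C hC hP h d => even_of red hO h hP hC d
  | succ j ih =>
    intro H _ _ C hC hP h d
    have := Fintype.ofFinite H
    exact ih _ (WrS C) (hC.wr hp2 hpO) (Op_wr hp2 hP) h d

/-- the ordinary conjecture for one group -/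
theorem ord_of_par (hp2 : p ≠ 2) {H : Type} [Group H] [Finite H]
    (h : ∀ j : ℕ, ParG p red (WrN j H)) : OrdC p red H := by
  intro hP B hB hB0 d
  have := Fintype.ofFinite H
  obtain ⟨O, hO⟩ := exists_O red
  have hpO : (p : ℂ) ∈ O.nonunits := (nat_nonunit hO (p := p) p).2 dvd_rfl
  obtain ⟨χ₀, h0, hf⟩ := Pool.Agent.N85.TG.Exc.core red hB
  have hC := good_of_dz hO hB0 h0 hf
  have hz := (bd_one hp2 hpO H _ hC).2 (fun j d => all_even red hO hp2 hpO j H _ hC hP (h j) d) d
  have hm : χ₀ ∈ {χ : H → ℂ | IsIrr χ ∧ ∀ x : H, omega χ x - omega χ₀ x ∈ O.nonunits} :=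
    mem_blk hO hC.block (χ₀ := hC.block.nonempty.choose) hC.block.nonempty.choose_spec h0
      fun f hf' => by
        have h5 := hC.block.nonempty.choose_spec
        exact ((cong_iff hO (hC.block.irr _ h5) h0).1 h5.2 f hf').symm
  rw [blkDef_gc hO p hC.block hm d] at hz
  rw [← hz]
  congr 1
  funext J
  unfold gc
  refine congrArg _ (Nat.card_congr (Equiv.subtypeEquivRight fun θ => ?_))
  refine and_congr_right fun _ => and_congr_right fun _ => ?_
  exact forall_congr' fun f => imp_congr_right fun hf' => by rw [hf f hf']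

/-- the parity statement follows from the conjecture -/
theorem par_of_dade {H : Type} [Group H] [Finite H] (h : DadeInv p red (⊤ : Subgroup H)) :
    ParG p red H := by
  intro hP B hB hB0 d
  have h1 := h hP B hB hB0 d ⊤
  have h2 := sm_gal red (⊤ : Subgroup H) B (p := p) ⊥ Nat.prime_two d
  have h3 : sm p red (⊤ : Subgroup H) ⊥ B d = 0 := by
    rw [← h1]
    change radSum p (⊤ : Subgroup H) (fun σ => (kdGe p red (⊤ : Subgroup H) B d ⊥ σ : ℤ)) = _
    congr 1
    funext σ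
    rw [kdGe_top red B d ⊥ ⊤ σ]
  rw [h3, zero_sub, dvd_neg] at h2
  exact_mod_cast h2

variable [IsAlgClosed F]

/-- closed under subgroups, homomorphic images and wreath products with `C₂` -/
def ClWr (𝒳 : ∀ (A : Type) [Group A], Prop) : Prop :=
  (∀ (A : Type) [Group A] (K : Subgroup A), 𝒳 A → 𝒳 K) ∧
  (∀ (A Q : Type) [Group A] [Group Q] (π : A →* Q), Function.Surjective π → 𝒳 A → 𝒳 Q) ∧
  ∀ (A : Type) [Group A], 𝒳 A → 𝒳 (Pool.Agent.Q90.WR.Wr A)

omit hp in
theorem wrN_cl {𝒳 : ∀ (A : Type) [Group A], Prop} (h𝒳 : ClWr 𝒳) :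
    ∀ (j : ℕ) (A : Type) [Group A], 𝒳 A → 𝒳 (WrN j A) := by
  intro j
  induction j with
  | zero => exact fun A _ h => h
  | succ j ih => exact fun A _ h => ih _ (h𝒳.2.2 A h)

theorem main_par (hp2 : p ≠ 2) {𝒳 : ∀ (A : Type) [Group A], Prop} (h𝒳 : ClWr 𝒳) :
    (∀ (E : Type) [Group E] [Finite E] (G : Subgroup E) [G.Normal], 𝒳 E → IsCyclic (E ⧸ G) →
      DadeInv p red G) ↔ ∀ (H : Type) [Group H] [Finite H], 𝒳 H → ParG p red H := by
  constructor
  · intro h H _ _ hH
    refine par_of_dade red (h H ⊤ hH ?_)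
    have : Subsingleton (H ⧸ (⊤ : Subgroup H)) := QuotientGroup.subsingleton_quotient_top
    exact isCyclic_of_subsingleton
  · intro h E _ _ G _ hE hc
    rw [dadeInv_iff red]
    refine inv_cyclic red parts hc fun K _ R _ _ _ Q _ _ π hπ _ => ?_
    have hQ : 𝒳 Q := h𝒳.2.1 _ Q π hπ (h𝒳.1 E _ hE)
    exact ord_of_par red hp2 fun j => h _ (wrN_cl h𝒳 j Q hQ)

end Pool.Agent.D0H4.BR
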